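import Pool.Agent.TH117.CZ.Defs

/-!
# Rational class functions are combinations of permutation characters
-/

set_option autoImplicit false

namespace Pool.Agent.TH117.CZ

open scoped Classical

variable {G : Type} [Group G] [Fintype G]

/-- The number of `η` with `η⁻¹ g η ∈ H`. -/
noncomputable def hs (H : Subgroup G) (g : G) : ℚ :=
  ∑ η : G, if η⁻¹ * g * η ∈ H then (1 : ℚ) else 0

def IsClassFn (f : G → ℚ) : Prop := ∀ x g, f (x⁻¹ * g * x) = f g

def IsPow (f : G → ℚ) : Prop := ∀ g y : G, Subgroup.zpowers g = Subgroup.zpowers y → f g = f y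

theorem zpowers_conj {x g y : G} (h : Subgroup.zpowers g = Subgroup.zpowers y) :
    Subgroup.zpowers (x⁻¹ * g * x) = Subgroup.zpowers (x⁻¹ * y * x) := by
  have key : ∀ g y : G, Subgroup.zpowers g ≤ Subgroup.zpowers y →
      Subgroup.zpowers (x⁻¹ * g * x) ≤ Subgroup.zpowers (x⁻¹ * y * x) := by
    intro g y h
    rw [Subgroup.zpowers_le]
    obtain ⟨k, hk⟩ := Subgroup.mem_zpowers_iff.1 (h (Subgroup.mem_zpowers g))
    rw [Subgroup.mem_zpowers_iff]
    refine ⟨k, ?_⟩
    have := conj_zpow (i := k) (a := x⁻¹) (b := y)
    rw [inv_inv] at this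
    rw [this, hk]
  exact le_antisymm (key g y h.le) (key y g h.ge)

theorem hs_class (H : Subgroup G) : IsClassFn (hs H) := by
  intro x g
  unfold hs
  refine Fintype.sum_equiv (Equiv.mulLeft x) _ _ fun η => ?_
  have : η⁻¹ * (x⁻¹ * g * x) * η = (x * η)⁻¹ * g * (x * η) := by group
  rw [this]
  rfl

theorem mem_iff_of_zpowers {H : Subgroup G} {g y : G}
    (h : Subgroup.zpowers g = Subgroup.zpowers y) : g ∈ H ↔ y ∈ H := by
  rw [← Subgroup.zpowers_le, h, Subgroup.zpowers_le]

theorem hs_pow (H : Subgroup G) : IsPow (hs H) := by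
  intro g y h
  unfold hs
  refine Finset.sum_congr rfl fun η _ => ?_
  rw [mem_iff_of_zpowers (H := H) (zpowers_conj (x := η) h)]

theorem orderOf_zpowers {g y : G} (h : Subgroup.zpowers g = Subgroup.zpowers y) :
    orderOf g = orderOf y := by
  rw [← Nat.card_zpowers, ← Nat.card_zpowers, h]

theorem zpowers_eq_of_mem {x y : G} (h : x ∈ Subgroup.zpowers y) (ho : orderOf x = orderOf y) :
    Subgroup.zpowers x = Subgroup.zpowers y := by
  refine Subgroup.eq_of_le_of_card_ge (Subgroup.zpowers_le.2 h) ?_
  rw [Nat.card_zpowers, Nat.card_zpowers, ho]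

theorem orderOf_conj' (x g : G) : orderOf (x⁻¹ * g * x) = orderOf g := by
  have := orderOf_injective (MulAut.conj x⁻¹).toMonoidHom (MulAut.conj x⁻¹).injective g
  rw [← this]
  simp [MulAut.conj_apply]

noncomputable def mult (y : G) : ℚ :=
  ∑ z : G, if Subgroup.zpowers z = Subgroup.zpowers y then (1 : ℚ) else 0

theorem mult_pos (y : G) : 0 < mult y := by
  unfold mult
  refine lt_of_lt_of_le one_pos ?_
  have := Finset.single_le_sum (f := fun z : G => if Subgroup.zpowers z = Subgroup.zpowers y then
    (1 : ℚ) else 0) (fun z _ => by split_ifs <;> norm_num) (Finset.mem_univ y)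
  simpa using this

theorem mult_eq {x y : G} (h : Subgroup.zpowers x = Subgroup.zpowers y) : mult x = mult y := by
  unfold mult
  rw [h]

noncomputable def step (f : G → ℚ) (n : ℕ) (g : G) : ℚ :=
  ∑ y : G, if orderOf y = n then f y / (Fintype.card G * mult y) * hs (Subgroup.zpowers y) g else 0

theorem card_pos' : (0 : ℚ) < Fintype.card G := by exact_mod_cast Fintype.card_pos

theorem step_of_eq {f : G → ℚ} (hf : IsClassFn f) (hp : IsPow f) {n : ℕ} {g : G}
    (hg : orderOf g = n) : step f n g = f g := by
  have hN : (0 : ℚ) < Fintype.card G := card_pos'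
  have h1 : step f n g = ∑ η : G, ∑ y : G,
      if orderOf y = n ∧ η⁻¹ * g * η ∈ Subgroup.zpowers y then
        f y / (Fintype.card G * mult y) else 0 := by
    unfold step hs
    rw [Finset.sum_comm]
    refine Finset.sum_congr rfl fun y _ => ?_
    split_ifs with h
    · rw [Finset.mul_sum]
      refine Finset.sum_congr rfl fun η _ => ?_
      by_cases hm : η⁻¹ * g * η ∈ Subgroup.zpowers y
      · rw [if_pos hm, if_pos ⟨h, hm⟩, mul_one]
      · rw [if_neg hm, if_neg fun hh => hm hh.2, mul_zero]
    · symm
      refine Finset.sum_eq_zero fun η _ => if_neg fun hh => h hh.1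
  have h2 : ∀ η : G, (∑ y : G, if orderOf y = n ∧ η⁻¹ * g * η ∈ Subgroup.zpowers y then
      f y / (Fintype.card G * mult y) else 0) = f g / Fintype.card G := by
    intro η
    set x := η⁻¹ * g * η with hx
    have hxo : orderOf x = n := by rw [hx, orderOf_conj', hg]
    have h3 : ∀ y : G, (if orderOf y = n ∧ x ∈ Subgroup.zpowers y then
        f y / (Fintype.card G * mult y) else 0) =
        (if Subgroup.zpowers y = Subgroup.zpowers x then (1 : ℚ) else 0) *
          (f x / (Fintype.card G * mult x)) := by
      intro y
      by_cases h : Subgroup.zpowers y = Subgroup.zpowers x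
      · have hy : orderOf y = n := by rw [orderOf_zpowers h, hxo]
        have hm : x ∈ Subgroup.zpowers y := by rw [h]; exact Subgroup.mem_zpowers x
        rw [if_pos ⟨hy, hm⟩, if_pos h, one_mul, hp y x h, mult_eq h]
      · rw [if_neg h, zero_mul, if_neg]
        rintro ⟨hy, hm⟩
        exact h (zpowers_eq_of_mem hm (by rw [hxo, hy])).symm
    rw [Finset.sum_congr rfl fun y _ => h3 y, ← Finset.sum_mul]
    change mult x * _ = _
    have hm := mult_pos x
    rw [show f g = f x from (hf η g).symm]
    field_simp
  rw [h1, Finset.sum_congr rfl fun η _ => h2 η, Finset.sum_const, Finset.card_univ, nsmul_eq_mul]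
  field_simp

theorem step_of_lt {f : G → ℚ} {n : ℕ} {g : G} (hg : n < orderOf g) : step f n g = 0 := by
  unfold step
  refine Finset.sum_eq_zero fun y _ => ?_
  split_ifs with h
  · have : hs (Subgroup.zpowers y) g = 0 := by
      unfold hs
      refine Finset.sum_eq_zero fun η _ => if_neg fun hm => ?_
      have h1 : orderOf (η⁻¹ * g * η) ∣ orderOf y := orderOf_dvd_of_mem_zpowers hm
      rw [orderOf_conj', h] at h1
      have hn : 0 < n := by rw [← h]; exact orderOf_pos y
      exact absurd (Nat.le_of_dvd hn h1) (not_le.2 hg)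
    rw [this, mul_zero]
  · rfl

/-- Artin's theorem. -/
theorem artin {f : G → ℚ} (hf : IsClassFn f) (hp : IsPow f) :
    f ∈ Submodule.span ℚ (Set.range fun y : G => hs (Subgroup.zpowers y)) := by
  have key : ∀ (n : ℕ) (f : G → ℚ), IsClassFn f → IsPow f → (∀ g, n < orderOf g → f g = 0) →
      f ∈ Submodule.span ℚ (Set.range fun y : G => hs (Subgroup.zpowers y)) := by
    intro n
    induction n with
    | zero =>
      intro f _ _ h
      have : f = 0 := funext fun g => h g (orderOf_pos g)
      rw [this]
      exact Submodule.zero_mem _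
    | succ n ih =>
      intro f hf hp h
      have hs1 : step f (n + 1) ∈
          Submodule.span ℚ (Set.range fun y : G => hs (Subgroup.zpowers y)) := by
        have : step f (n + 1) = ∑ y : G, (if orderOf y = n + 1 then
            f y / (Fintype.card G * mult y) else 0) • hs (Subgroup.zpowers y) := by
          funext g
          rw [Finset.sum_apply]
          unfold step
          refine Finset.sum_congr rfl fun y _ => ?_
          rw [Pi.smul_apply, smul_eq_mul]
          split_ifs
          · rfl
          · rw [zero_mul]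
        rw [this]
        exact Submodule.sum_mem _ fun y _ =>
          Submodule.smul_mem _ _ (Submodule.subset_span ⟨y, rfl⟩)
      have hs2 : f - step f (n + 1) ∈
          Submodule.span ℚ (Set.range fun y : G => hs (Subgroup.zpowers y)) := by
        apply ih
        · intro x g
          rw [Pi.sub_apply, Pi.sub_apply, hf]
          congr 1
          unfold step
          refine Finset.sum_congr rfl fun y _ => ?_
          rw [hs_class]
        · intro g y hgy
          rw [Pi.sub_apply, Pi.sub_apply, hp g y hgy]
          congr 1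
          unfold step
          refine Finset.sum_congr rfl fun z _ => ?_
          rw [hs_pow _ g y hgy]
        · intro g hg
          rw [Pi.sub_apply]
          rcases (Nat.succ_le_of_lt hg).eq_or_lt with h1 | h1
          · rw [step_of_eq hf hp (n := n + 1) h1.symm, sub_self]
          · rw [h g h1, step_of_lt h1, sub_zero]
      have := Submodule.add_mem _ hs2 hs1
      rwa [sub_add_cancel] at this
  exact key (Fintype.card G) f hf hp fun g hg =>
    absurd (orderOf_le_card_univ (x := g)) (not_le.2 hg)

end Pool.Agent.TH117.CZ
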