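import Pool.Agent.TH117.CZ.Main

/-!
# The condition on the group is necessary
-/

set_option autoImplicit false

namespace Pool.Agent.TH117.CZ

open scoped Classical commutatorElement

variable {G : Type} [Group G] [Fintype G]

/-- The number of the `η` that conjugate `g` to `z`. -/
noncomputable def cnt (z g : G) : ℚ := ∑ η : G, if η⁻¹ * g * η = z then (1 : ℚ) else 0

theorem cnt_nonneg (z g : G) : 0 ≤ cnt z g :=
  Finset.sum_nonneg fun η _ => by split_ifs <;> norm_num

theorem cnt_eq_zero {z g : G} (h : ¬ IsConj g z) : cnt z g = 0 := by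
  refine Finset.sum_eq_zero fun η _ => if_neg fun h' => h ?_
  rw [isConj_iff]
  exact ⟨η⁻¹, by rw [inv_inv]; exact h'⟩

theorem cnt_pos {z g : G} (h : IsConj g z) : 0 < cnt z g := by
  obtain ⟨x, hx⟩ := isConj_iff.1 h
  refine Finset.sum_pos' (fun η _ => by split_ifs <;> norm_num) ⟨x⁻¹, Finset.mem_univ _, ?_⟩
  rw [inv_inv, if_pos hx]
  norm_num

theorem cnt_cmul {c : G} (hc : IsConjugation c) (z g : G) : cnt z (c * g) = cnt (c * z) g := by
  unfold cnt
  refine Finset.sum_congr rfl fun η _ => if_congr ?_ rfl rfl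
  rw [conj_c_mul hc]
  constructor
  · intro h
    rw [← h, ← mul_assoc, hc.mul_self, one_mul]
  · intro h
    rw [h, ← mul_assoc, hc.mul_self, one_mul]

/-- The odd class function of `z`. -/
noncomputable def oddCnt (c z g : G) : ℚ := cnt z g - cnt (c * z) g

theorem oddCnt_cmul {c : G} (hc : IsConjugation c) (z g : G) :
    oddCnt c z (c * g) = - oddCnt c z g := by
  unfold oddCnt
  rw [cnt_cmul hc, cnt_cmul hc, ← mul_assoc, hc.mul_self, one_mul]
  ring

theorem linearPart_sub (f f' : G → ℚ) : linearPart (f - f') = linearPart f - linearPart f' := by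
  funext g
  simp only [linearPart, Pi.sub_apply, Finset.sum_sub_distrib, sub_div]

theorem IsRational.sub {f f' : G → ℚ} (h : IsRational f) (h' : IsRational f') :
    IsRational (f - f') := by
  intro g y hz
  rw [linearPart_sub]
  have := h g y hz
  have := h' g y hz
  simp only [Pi.sub_apply]
  linarith

theorem IsRational.add {f f' : G → ℚ} (h : IsRational f) (h' : IsRational f') :
    IsRational (f + f') := by
  intro g y hz
  rw [linearPart_add]
  have := h g y hz
  have := h' g y hz
  simp only [Pi.add_apply]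
  linarith

theorem IsRational.smul {f : G → ℚ} (a : ℚ) (h : IsRational f) : IsRational (a • f) := by
  intro g y hz
  rw [linearPart_smul]
  have := h g y hz
  simp only [Pi.smul_apply, smul_eq_mul]
  rw [← mul_sub, this, mul_sub]

/-- The change of a sum when a type is changed at one place. -/
theorem ind_swap {c : G} (hc : IsConjugation c) {H : Subgroup G} (hH : c ∉ H)
    {Φ : Finset (G ⧸ H)} (hΦ : IsCMType c Φ) {y : G ⧸ H} (hy : y ∈ Φ) (x : G ⧸ H) :
    (if x ∈ Φ then (1 : ℚ) else 0) - (if x ∈ swap hc y Φ then 1 else 0) =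
      (if x = y then (1 : ℚ) else 0) - (if x = c • y then 1 else 0) := by
  have hcy : c • y ∉ Φ := (hΦ y).1 hy
  have h4 : (x ∈ swap hc y Φ) ↔ _ := mem_swap hc
  by_cases e1 : x = y
  · have e2 : x ≠ c • y := by
      rw [e1]; exact (smul_ne hc hH y).symm
    rw [if_pos (Or.inl e1)] at h4
    rw [if_pos e1, if_neg e2, if_pos (by rw [e1]; exact hy), if_neg (by
      rw [h4, not_not, e1]; exact hy)]
  · by_cases e2 : x = c • y
    · rw [if_pos (Or.inr e2)] at h4
      rw [if_neg e1, if_pos e2, if_neg (by rw [e2]; exact hcy), if_pos (by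
        rw [h4, e2]; exact hcy)]
    · rw [if_neg (by rintro (h | h); exacts [e1 h, e2 h])] at h4
      rw [if_neg e1, if_neg e2, if_congr h4 rfl rfl]
      ring

theorem a0_eq {H : Subgroup G} (ψ : G ⧸ H) (Φ : Finset (G ⧸ H)) (g : G) :
    a0 ψ Φ g = (∑ η : G, if (η⁻¹ * g * η) • ψ ∈ Φ then (1 : ℚ) else 0) / Fintype.card G := by
  unfold a0
  rw [Finset.card_filter]
  push_cast
  rfl

theorem c_notMem_bot {c : G} (hc : IsConjugation c) : c ∉ (⊥ : Subgroup G) := by
  rw [Subgroup.mem_bot]; exact hc.ne_one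

omit [Fintype G] in
theorem mk_bot_eq {a b : G} : ((a : G ⧸ (⊥ : Subgroup G)) = (b : G ⧸ (⊥ : Subgroup G))) ↔ a = b := by
  rw [QuotientGroup.eq, Subgroup.mem_bot, inv_mul_eq_one]

theorem oddCnt_rational {c : G} (hc : IsConjugation c)
    (h : ∀ (ψ : G ⧸ (⊥ : Subgroup G)) (Φ : Finset (G ⧸ (⊥ : Subgroup G))), IsCMType c Φ →
      IsRational (a0 ψ Φ)) (z : G) : IsRational (oddCnt c z) := by
  have hN : (0 : ℚ) < Fintype.card G := card_pos'
  obtain ⟨Φ, hΦ⟩ := exists_isCMType hc (c_notMem_bot hc)
  have key : ∀ z : G, (z : G ⧸ (⊥ : Subgroup G)) ∈ Φ → IsRational (oddCnt c z) := by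
    intro z hz
    have h1 : oddCnt c z = (Fintype.card G : ℚ) • (a0 ((1 : G) : G ⧸ (⊥ : Subgroup G)) Φ -
        a0 ((1 : G) : G ⧸ (⊥ : Subgroup G)) (swap hc (z : G ⧸ (⊥ : Subgroup G)) Φ)) := by
      funext g
      rw [Pi.smul_apply, Pi.sub_apply, a0_eq, a0_eq, ← sub_div, smul_eq_mul,
        mul_div_cancel₀ _ hN.ne', ← Finset.sum_sub_distrib]
      unfold oddCnt cnt
      rw [← Finset.sum_sub_distrib]
      refine Finset.sum_congr rfl fun η _ => ?_
      rw [ind_swap hc (c_notMem_bot hc) hΦ hz]
      have e1 : (η⁻¹ * g * η) • ((1 : G) : G ⧸ (⊥ : Subgroup G)) =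
          ((η⁻¹ * g * η * 1 : G) : G ⧸ (⊥ : Subgroup G)) := rfl
      have e2 : c • (z : G ⧸ (⊥ : Subgroup G)) = ((c * z : G) : G ⧸ (⊥ : Subgroup G)) := rfl
      rw [e1, e2, mul_one]
      congr 1
      · exact if_congr mk_bot_eq.symm rfl rfl
      · exact if_congr mk_bot_eq.symm rfl rfl
    rw [h1]
    exact ((h _ _ hΦ).sub (h _ _ (swap_isCMType hc _ hΦ))).smul _
  by_cases hz : (z : G ⧸ (⊥ : Subgroup G)) ∈ Φ
  · exact key z hz
  · have h1 := key (c * z) (by
      have := hΦ (z : G ⧸ (⊥ : Subgroup G))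
      change c • (z : G ⧸ (⊥ : Subgroup G)) ∈ Φ
      tauto)
    have h2 : oddCnt c z = (-1 : ℚ) • oddCnt c (c * z) := by
      funext g
      rw [Pi.smul_apply, smul_eq_mul]
      unfold oddCnt
      rw [← mul_assoc, hc.mul_self, one_mul]
      ring
    rw [h2]
    exact h1.smul _

theorem linearPart_odd_zero {c : G} (hc : IsConjugation c) (hcD : c ∈ commutator G) {F : G → ℚ}
    (ho : ∀ g, F (c * g) = - F g) (g : G) : linearPart F g = 0 := by
  have h1 := linearPart_compl (f := F) (c := c) (k := 0) (fun g => by rw [ho]; ring) g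
  rw [hc.central g, linearPart_mul F g hcD] at h1
  linarith

theorem linearPart_of_mk {F : G → ℚ} {g y : G}
    (h : (g : G ⧸ commutator G) = (y : G ⧸ commutator G)) : linearPart F g = linearPart F y := by
  have h1 : y = g * (g⁻¹ * y) := by group
  rw [h1]
  exact (linearPart_mul F g (QuotientGroup.eq.1 h)).symm

omit [Fintype G] in
theorem mk_mul_mem (g : G) {u : G} (hu : u ∈ commutator G) :
    ((g * u : G) : G ⧸ commutator G) = (g : G ⧸ commutator G) := by
  symm
  rw [QuotientGroup.eq]
  simpa using hu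

omit [Fintype G] in
theorem isConj_cmul {c : G} (hc : IsConjugation c) {a b : G} (h : IsConj a (c * b)) :
    IsConj (c * a) b := by
  obtain ⟨x, hx⟩ := isConj_iff.1 h
  rw [isConj_iff]
  refine ⟨x, ?_⟩
  have h1 : x * (c * a) * x⁻¹ = c * (x * a * x⁻¹) := by
    rw [← mul_assoc, ← hc.central x]; group
  rw [h1, hx, ← mul_assoc, hc.mul_self, one_mul]

omit [Fintype G] in
theorem isConj_cmul' {c : G} (hc : IsConjugation c) {a b : G} (h : IsConj (c * a) b) :
    IsConj a (c * b) := (isConj_cmul hc (h.symm)).symm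

omit [Fintype G] in
theorem mk_cmul {c : G} (hcD : c ∉ commutator G) (hc : IsConjugation c) (g : G) :
    ((c * g : G) : G ⧸ commutator G) ≠ (g : G ⧸ commutator G) := by
  intro h
  rw [QuotientGroup.eq] at h
  have h2 : (c * g)⁻¹ * g = c := by
    rw [hc.central g, mul_inv_rev, inv_eq_self hc, mul_assoc, inv_mul_cancel, mul_one]
  rw [h2] at h
  exact hcD h

theorem good_of_rational {c : G} (hc : IsConjugation c) (h : ∀ z, IsRational (oddCnt c z)) :
    IsGoodGroup c := by
  intro g y hz
  by_cases hgy : IsConj g y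
  · exact Or.inl hgy
  right
  by_cases hgc : IsConj g (c * g)
  · exact Or.inl hgc
  right
  have hne : linearPart (oddCnt c g) g ≠ linearPart (oddCnt c g) y := by
    intro he
    have h1 := h g g y hz
    rw [he] at h1
    have h2 : oddCnt c g g = oddCnt c g y := by linarith
    unfold oddCnt at h2
    rw [cnt_eq_zero hgc, cnt_eq_zero (z := g) (g := y) fun h' => hgy h'.symm] at h2
    have h3 := cnt_pos (IsConj.refl g)
    have h4 := cnt_nonneg (c * g) y
    linarith
  have hcD : c ∉ commutator G := by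
    intro hcD
    apply hne
    rw [linearPart_odd_zero hc hcD (oddCnt_cmul hc g),
      linearPart_odd_zero hc hcD (oddCnt_cmul hc g)]
  have hD : (g : G ⧸ commutator G) ≠ (y : G ⧸ commutator G) := fun he => hne (linearPart_of_mk he)
  intro u hu
  by_contra hcon
  push Not at hcon
  obtain ⟨hu1, hu2⟩ := hcon
  have hpos := card_comm_pos (G := G)
  set z := g * u with hzdef
  have hzg : (z : G ⧸ commutator G) = (g : G ⧸ commutator G) := mk_mul_mem g hu
  have h1 := h z g y hz
  have e1 : oddCnt c z g = 0 := by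
    unfold oddCnt
    rw [cnt_eq_zero fun h' => hu1 h'.symm, cnt_eq_zero, sub_self]
    intro h'
    have h2 := mk_of_isConj (isConj_cmul hc h')
    rw [hzg] at h2
    exact mk_cmul hcD hc g h2
  have e2 : oddCnt c z y = 0 := by
    unfold oddCnt
    rw [cnt_eq_zero, cnt_eq_zero, sub_self]
    · intro h'
      exact hu2 (isConj_cmul hc h').symm
    · intro h'
      have h2 := mk_of_isConj h'
      rw [hzg] at h2
      exact hD h2.symm
  have e3 : 0 < linearPart (oddCnt c z) g := by
    unfold linearPart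
    refine div_pos ?_ hpos
    refine Finset.sum_pos' ?_ ⟨⟨u, hu⟩, Finset.mem_univ _, ?_⟩
    · intro v _
      unfold oddCnt
      rw [cnt_eq_zero (z := c * z), sub_zero]
      · exact cnt_nonneg _ _
      · intro h'
        have h2 := mk_of_isConj (isConj_cmul hc h')
        rw [hzg] at h2
        have h3 : ((c * (g * v) : G) : G ⧸ commutator G) = ((c * g : G) : G ⧸ commutator G) := by
          rw [← mul_assoc]; exact mk_mul_mem _ v.2
        rw [h3] at h2
        exact mk_cmul hcD hc g h2
    · unfold oddCnt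
      change 0 < cnt z z - cnt (c * z) z
      rw [cnt_eq_zero (z := c * z), sub_zero]
      · exact cnt_pos (IsConj.refl z)
      · intro h'
        exact mk_cmul hcD hc z (mk_of_isConj h').symm
  have e4 : linearPart (oddCnt c z) y ≤ 0 := by
    unfold linearPart
    refine div_nonpos_of_nonpos_of_nonneg ?_ hpos.le
    refine Finset.sum_nonpos fun v _ => ?_
    unfold oddCnt
    rw [cnt_eq_zero (z := z), zero_sub]
    · have := cnt_nonneg (c * z) (y * v)
      linarith
    · intro h'
      have h2 := mk_of_isConj h'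
      rw [hzg, mk_mul_mem y v.2] at h2
      exact hD h2.symm
  rw [e1, e2] at h1
  linarith

end Pool.Agent.TH117.CZ
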