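import Mathlib

/-!
# CM types and the class functions of Colmez: definitions
-/

set_option autoImplicit false

namespace Pool.Agent.TH117.CZ

open scoped Classical

variable {G : Type} [Group G] [Fintype G]

/-- `c` is a central element of order two of the Galois group `G` of a Galois CM field: the complex
conjugation. -/
structure IsConjugation (c : G) : Prop where
  ne_one : c ≠ 1
  mul_self : c * c = 1
  central : ∀ g : G, c * g = g * c

/-- A CM type `Φ` of the CM field `E` fixed by the subgroup `H`: the embeddings of `E` are the cosets
in `G ⧸ H`, and `Φ` contains exactly one of each two conjugate embeddings. -/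
def IsCMType (c : G) {H : Subgroup G} (Φ : Finset (G ⧸ H)) : Prop :=
  ∀ x, x ∈ Φ ↔ c • x ∉ Φ

/-- The class function `a⁰` of Colmez for the field `E` fixed by `H`, an embedding `ψ` and a CM type
`Φ`: the proportion of the `η` in `G` such that `η⁻¹ g η ψ` belongs to `Φ`. -/
noncomputable def a0 {H : Subgroup G} (ψ : G ⧸ H) (Φ : Finset (G ⧸ H)) (g : G) : ℚ :=
  (Finset.univ.filter fun η : G => (η⁻¹ * g * η) • ψ ∈ Φ).card / Fintype.card G

/-- The class function `A⁰` that belongs to the Faltings height for the CM type `Φ`: the sum of the
functions `a⁰` over all embeddings `ψ` in `Φ`. -/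
noncomputable def height {H : Subgroup G} (Φ : Finset (G ⧸ H)) (g : G) : ℚ := ∑ ψ ∈ Φ, a0 ψ Φ g

/-- The sum of the functions `A⁰` over all CM types `Φ` of the field fixed by `H`. -/
noncomputable def averaged (c : G) (H : Subgroup G) (g : G) : ℚ :=
  ∑ Φ ∈ Finset.univ.filter fun Φ : Finset (G ⧸ H) => IsCMType c Φ, height Φ g

/-- The class functions for which the product formula is a theorem:

* the constant function one (the multiplicative group);
* the functions `a⁰` for the abelian CM subfields (Colmez, Obus): those fixed by a subgroup `H` that
  contains the commutator subgroup and does not contain `c`;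
* the averages over all CM types of a CM subfield (Andreatta, Goren, Howard, Madapusi Pera; Yuan,
  Zhang). -/
inductive IsKnown (c : G) : (G → ℚ) → Prop
  | one : IsKnown c fun _ => 1
  | abelian (H : Subgroup G) (hc : c ∉ H) (hH : commutator G ≤ H) (ψ : G ⧸ H)
      (Φ : Finset (G ⧸ H)) (hΦ : IsCMType c Φ) : IsKnown c (a0 ψ Φ)
  | average (H : Subgroup G) (hc : c ∉ H) : IsKnown c (averaged c H)

/-- The space of the linear combinations of these functions. -/
def knownSpan (c : G) : Submodule ℚ (G → ℚ) := Submodule.span ℚ {f | IsKnown c f}

/-- The mean value of `f` on the coset `g G'` of the commutator subgroup `G'`: the contribution of the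
linear characters to the class function `f`. -/
noncomputable def linearPart (f : G → ℚ) (g : G) : ℚ :=
  (∑ u : commutator G, f (g * u)) / Fintype.card (commutator G)

/-- Two elements that generate the same subgroup have the same value of the contribution of the other
characters to the class function `f`. -/
def IsRational (f : G → ℚ) : Prop :=
  ∀ g y : G, Subgroup.zpowers g = Subgroup.zpowers y → f g - linearPart f g = f y - linearPart f y

/-- The condition on the group for the product formula: if `g` and `y` generate the same subgroup,
then `g` is conjugate to `y`, or to `c g`, or each element of the coset `g G'` of the commutator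
subgroup is conjugate to `g` or to `c y`. -/
def IsGoodGroup (c : G) : Prop :=
  ∀ g y : G, Subgroup.zpowers g = Subgroup.zpowers y →
    IsConj g y ∨ IsConj g (c * g) ∨
      ∀ u ∈ commutator G, IsConj (g * u) g ∨ IsConj (g * u) (c * y)

/-- The condition on the group for the Faltings height: the same up to inverses. -/
def IsGoodForHeights (c : G) : Prop :=
  ∀ g y : G, Subgroup.zpowers g = Subgroup.zpowers y →
    (IsConj g y ∨ IsConj g⁻¹ y) ∨ (IsConj g (c * g) ∨ IsConj g⁻¹ (c * g)) ∨
      ∀ u ∈ commutator G, (IsConj (g * u) g ∨ IsConj (g * u) g⁻¹) ∨
        (IsConj (g * u) (c * y) ∨ IsConj (g * u) (c * y⁻¹))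

end Pool.Agent.TH117.CZ
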