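import Pool.Agent.TH117.CZ.Heights

/-!
# The criterion for the Faltings height: necessity
-/

set_option autoImplicit false

namespace Pool.Agent.TH117.CZ

open scoped Classical commutatorElement

variable {G : Type} [Group G] [Fintype G]

theorem isRational_of_isPow {f : G → ℚ} (hp : IsPow f) : IsRational f := by
  intro g y h
  rw [hp g y h, linearPart_isPow hp g y h]

/-- The symmetric odd class function of `z`. -/
noncomputable def symCnt (c z : G) : G → ℚ := oddCnt c z + oddCnt c z⁻¹

theorem oddCnt_c {c : G} (hc : IsConjugation c) (z : G) :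
    oddCnt c (c * z) = (-1 : ℚ) • oddCnt c z := by
  funext g
  rw [Pi.smul_apply, smul_eq_mul]
  unfold oddCnt
  rw [← mul_assoc, hc.mul_self, one_mul]
  ring

theorem symCnt_c {c : G} (hc : IsConjugation c) (z : G) :
    symCnt c (c * z) = (-1 : ℚ) • symCnt c z := by
  unfold symCnt
  rw [cmul_inv hc, oddCnt_c hc, oddCnt_c hc, smul_add]

theorem oddCnt_one_rational {c : G} (hc : IsConjugation c) : IsRational (oddCnt c 1) := by
  apply isRational_of_isPow
  have h1 : IsPow (cnt (1 : G)) := by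
    intro g y h
    unfold cnt
    refine Finset.sum_congr rfl fun η _ => if_congr ?_ rfl rfl
    have h2 : ∀ g : G, η⁻¹ * g * η = 1 ↔ g = 1 := by
      intro g
      constructor
      · intro h
        have h3 : g = η * (η⁻¹ * g * η) * η⁻¹ := by group
        rw [h3, h]; group
      · rintro rfl; group
    rw [h2, h2, ← Subgroup.zpowers_eq_bot, ← Subgroup.zpowers_eq_bot, h]
  intro g y h
  unfold oddCnt
  rw [← cnt_cmul hc, ← cnt_cmul hc, h1 g y h]
  have h2 : cnt 1 (c * g) = cnt 1 (c * y) := isPow_comp hc h1 g y h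
  rw [h2]

/-- The quadratic form of a function. -/
noncomputable def Q {H : Subgroup G} (s : G ⧸ H → ℚ) (h : G) : ℚ := ∑ ψ : G ⧸ H, s ψ * s (h • ψ)

noncomputable def ind {H : Subgroup G} (Φ : Finset (G ⧸ H)) (x : G ⧸ H) : ℚ := if x ∈ Φ then 1 else 0

noncomputable def dif {H : Subgroup G} (c : G) (y x : G ⧸ H) : ℚ :=
  (if x = y then (1 : ℚ) else 0) - (if x = c • y then 1 else 0)

theorem height_eq_Q {H : Subgroup G} (Φ : Finset (G ⧸ H)) (g : G) :
    height Φ g = (∑ η : G, Q (ind Φ) (η⁻¹ * g * η)) / Fintype.card G := by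
  unfold height
  rw [Finset.sum_congr rfl fun ψ _ => a0_eq ψ Φ g, ← Finset.sum_div, Finset.sum_comm]
  congr 1
  refine Finset.sum_congr rfl fun η _ => ?_
  unfold Q ind
  rw [← Finset.sum_filter_add_sum_filter_not (s := Finset.univ) (p := (· ∈ Φ))
    (f := fun ψ => (if ψ ∈ Φ then (1 : ℚ) else 0) * _)]
  rw [Finset.filter_mem_eq_inter, Finset.univ_inter]
  have e3 : (∑ ψ ∈ Finset.univ.filter fun ψ => ψ ∉ Φ, (if ψ ∈ Φ then (1 : ℚ) else 0) *
      (if (η⁻¹ * g * η) • ψ ∈ Φ then (1 : ℚ) else 0)) = 0 := by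
    refine Finset.sum_eq_zero fun ψ hψ => ?_
    rw [Finset.mem_filter] at hψ
    rw [if_neg hψ.2, zero_mul]
  rw [e3, add_zero]
  refine Finset.sum_congr rfl fun ψ hψ => ?_
  rw [if_pos hψ, one_mul]

theorem Q_polar {H : Subgroup G} (s a b : G ⧸ H → ℚ) (h : G) :
    Q s h - Q (s - a) h - Q (s - b) h + Q (s - a - b) h =
      ∑ ψ : G ⧸ H, (a ψ * b (h • ψ) + b ψ * a (h • ψ)) := by
  unfold Q
  rw [← Finset.sum_sub_distrib, ← Finset.sum_sub_distrib, ← Finset.sum_add_distrib]
  refine Finset.sum_congr rfl fun ψ _ => ?_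
  simp only [Pi.sub_apply]
  ring

theorem dif_c {c : G} (hc : IsConjugation c) {H : Subgroup G} (y x : G ⧸ H) :
    dif c y (c • x) = - dif c y x := by
  unfold dif
  have h1 : c • x = y ↔ x = c • y := smul_eq_iff hc x y
  have h2 : c • x = c • y ↔ x = y := by
    rw [smul_eq_iff hc, smul_smul_self hc]
  rw [if_congr h1 rfl rfl, if_congr h2 rfl rfl]
  ring

theorem sum_dif {c : G} (hc : IsConjugation c) {H : Subgroup G} (a b : G ⧸ H) (h : G) :
    (∑ ψ : G ⧸ H, dif c a ψ * dif c b (h • ψ)) = 2 * dif c b (h • a) := by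
  have h1 : ∀ ψ : G ⧸ H, dif c a ψ * dif c b (h • ψ) =
      (if ψ = a then dif c b (h • a) else 0) - (if ψ = c • a then dif c b (h • c • a) else 0) := by
    intro ψ
    change ((if ψ = a then (1 : ℚ) else 0) - (if ψ = c • a then 1 else 0)) * _ = _
    by_cases e1 : ψ = a
    · by_cases e2 : ψ = c • a
      · rw [if_pos e1, if_pos e2, if_pos e1, if_pos e2, ← e2, ← e1]; ring
      · rw [if_pos e1, if_neg e2, if_pos e1, if_neg e2, e1]; ring
    · by_cases e2 : ψ = c • a
      · rw [if_neg e1, if_pos e2, if_neg e1, if_pos e2, e2]; ring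
      · rw [if_neg e1, if_neg e2, if_neg e1, if_neg e2]; ring
  rw [Finset.sum_congr rfl fun ψ _ => h1 ψ, Finset.sum_sub_distrib, Finset.sum_ite_eq',
    Finset.sum_ite_eq', if_pos (Finset.mem_univ _), if_pos (Finset.mem_univ _)]
  have h2 : h • c • a = c • h • a := by rw [smul_smul, smul_smul, hc.central]
  rw [h2, dif_c hc]
  ring

theorem dif_bot {c : G} (α β h : G) :
    dif c (β : G ⧸ (⊥ : Subgroup G)) (h • (α : G ⧸ (⊥ : Subgroup G))) =
      (if h = β * α⁻¹ then (1 : ℚ) else 0) - (if h = c * (β * α⁻¹) then 1 else 0) := by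
  unfold dif
  have e1 : h • (α : G ⧸ (⊥ : Subgroup G)) = ((h * α : G) : G ⧸ (⊥ : Subgroup G)) := rfl
  have e2 : c • (β : G ⧸ (⊥ : Subgroup G)) = ((c * β : G) : G ⧸ (⊥ : Subgroup G)) := rfl
  rw [e1, e2]
  congr 1
  · refine if_congr (mk_bot_eq.trans ?_) rfl rfl
    rw [eq_mul_inv_iff_mul_eq]
  · refine if_congr (mk_bot_eq.trans ?_) rfl rfl
    rw [← mul_assoc, eq_mul_inv_iff_mul_eq]

theorem sum_dif_bot {c : G} (α β g : G) :
    (∑ η : G, dif c (β : G ⧸ (⊥ : Subgroup G)) ((η⁻¹ * g * η) • (α : G ⧸ (⊥ : Subgroup G)))) =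
      oddCnt c (β * α⁻¹) g := by
  unfold oddCnt cnt
  rw [← Finset.sum_sub_distrib]
  exact Finset.sum_congr rfl fun η _ => dif_bot α β _

theorem ind_swap' {c : G} (hc : IsConjugation c) {H : Subgroup G} (hH : c ∉ H)
    {Φ : Finset (G ⧸ H)} (hΦ : IsCMType c Φ) {y : G ⧸ H} (hy : y ∈ Φ) :
    ind (swap hc y Φ) = ind Φ - dif c y := by
  funext x
  have := ind_swap hc hH hΦ hy x
  rw [Pi.sub_apply]
  unfold ind dif
  linarith

theorem symCnt_rational {c : G} (hc : IsConjugation c)
    (h : ∀ Φ : Finset (G ⧸ (⊥ : Subgroup G)), IsCMType c Φ → IsRational (height Φ)) (z : G) :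
    IsRational (symCnt c z) := by
  have hN : (0 : ℚ) < Fintype.card G := card_pos'
  have hb := c_notMem_bot hc
  by_cases hz1 : z = 1
  · rw [hz1]
    unfold symCnt
    rw [inv_one]
    exact (oddCnt_one_rational hc).add (oddCnt_one_rational hc)
  by_cases hzc : z = c
  · have h1 : z = c * 1 := by rw [hzc, mul_one]
    rw [h1, symCnt_c hc]
    refine IsRational.smul _ ?_
    unfold symCnt
    rw [inv_one]
    exact (oddCnt_one_rational hc).add (oddCnt_one_rational hc)
  obtain ⟨Φ, hΦ⟩ := exists_isCMType hc hb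
  have key : ∀ α β : G, (α : G ⧸ (⊥ : Subgroup G)) ∈ Φ → (β : G ⧸ (⊥ : Subgroup G)) ∈ Φ → α ≠ β →
      IsRational (symCnt c (β * α⁻¹)) := by
    intro α β hα hβ hne
    set a := (α : G ⧸ (⊥ : Subgroup G)) with ha
    set b := (β : G ⧸ (⊥ : Subgroup G)) with hbdef
    have hab : b ≠ a := fun h' => hne (mk_bot_eq.1 h').symm
    have hbc : b ≠ c • a := by
      intro h'
      rw [h'] at hβ
      exact ((hΦ a).1 hα) hβ
    have hΦa := swap_isCMType hc a hΦ
    have hΦb := swap_isCMType hc b hΦ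
    have hb' : b ∈ swap hc a Φ := by
      rw [mem_swap, if_neg]
      · exact hβ
      · rintro (h' | h')
        · exact hab h'
        · exact hbc h'
    have hΦab := swap_isCMType hc b hΦa
    have h1 : symCnt c (β * α⁻¹) = ((Fintype.card G : ℚ) / 2) •
        (height Φ - height (swap hc a Φ) - height (swap hc b Φ) +
          height (swap hc b (swap hc a Φ))) := by
      funext g
      rw [Pi.smul_apply, Pi.add_apply, Pi.sub_apply, Pi.sub_apply, height_eq_Q, height_eq_Q,
        height_eq_Q, height_eq_Q, ind_swap' hc hb hΦa hb', ind_swap' hc hb hΦ hα,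
        ind_swap' hc hb hΦ hβ, smul_eq_mul, ← sub_div, ← sub_div, ← add_div,
        ← Finset.sum_sub_distrib, ← Finset.sum_sub_distrib, ← Finset.sum_add_distrib]
      rw [Finset.sum_congr rfl fun η _ => Q_polar (ind Φ) (dif c a) (dif c b) (η⁻¹ * g * η)]
      have h2 : ∀ η : G, (∑ ψ, (dif c a ψ * dif c b ((η⁻¹ * g * η) • ψ) +
          dif c b ψ * dif c a ((η⁻¹ * g * η) • ψ))) =
          2 * dif c b ((η⁻¹ * g * η) • a) + 2 * dif c a ((η⁻¹ * g * η) • b) := by
        intro η
        rw [Finset.sum_add_distrib, sum_dif hc, sum_dif hc]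
      rw [Finset.sum_congr rfl fun η _ => h2 η, Finset.sum_add_distrib, ← Finset.mul_sum,
        ← Finset.mul_sum, ha, hbdef, sum_dif_bot, sum_dif_bot]
      have h3 : α * β⁻¹ = (β * α⁻¹)⁻¹ := by group
      rw [h3]
      change oddCnt c (β * α⁻¹) g + oddCnt c (β * α⁻¹)⁻¹ g = _
      field_simp
    rw [h1]
    exact ((((h _ hΦ).sub (h _ hΦa)).sub (h _ hΦb)).add (h _ hΦab)).smul _
  have hmem : ∀ x : G, (x : G ⧸ (⊥ : Subgroup G)) ∈ Φ ∨
      ((c * x : G) : G ⧸ (⊥ : Subgroup G)) ∈ Φ := by
    intro x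
    have h1 := hΦ (x : G ⧸ (⊥ : Subgroup G))
    have h2 : c • (x : G ⧸ (⊥ : Subgroup G)) = ((c * x : G) : G ⧸ (⊥ : Subgroup G)) := rfl
    rw [h2] at h1
    tauto
  have hsc : IsRational (symCnt c (c * z)) → IsRational (symCnt c z) := by
    intro h1
    rw [symCnt_c hc] at h1
    have h2 := h1.smul (-1)
    rw [smul_smul] at h2
    norm_num at h2
    exact h2
  have hcc : ∀ x : G, c * (c * x) = x := fun x => by rw [← mul_assoc, hc.mul_self, one_mul]
  have hcc' : ∀ x : G, c * (x * c) = x := fun x => by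
    rw [← hc.central x, hcc]
  rcases hmem 1 with h1 | h1 <;> rcases hmem z with h2 | h2
  · have := key 1 z h1 h2 fun h' => hz1 h'.symm
    rwa [inv_one, mul_one] at this
  · have := key 1 (c * z) h1 h2 fun h' => hzc (by
      have h3 : c * (c * z) = c * 1 := by rw [← h']
      rwa [hcc, mul_one] at h3)
    rw [inv_one, mul_one] at this
    exact hsc this
  · rw [mul_one] at h1
    have := key c z h1 h2 fun h' => hzc h'.symm
    rw [inv_eq_self hc, ← hc.central] at this
    exact hsc this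
  · rw [mul_one] at h1
    have := key c (c * z) h1 h2 fun h' => hz1 (by
      have h3 : c * (c * z) = c * c := by rw [← h']
      rwa [hcc, hc.mul_self] at h3)
    rwa [inv_eq_self hc, mul_assoc, hcc'] at this

theorem symCnt_inv {c : G} (hc : IsConjugation c) (z g : G) : symCnt c z g⁻¹ = symCnt c z g := by
  have h1 : ∀ z : G, cnt z g⁻¹ = cnt z⁻¹ g := by
    intro z
    unfold cnt
    refine Finset.sum_congr rfl fun η _ => if_congr ?_ rfl rfl
    have h2 : η⁻¹ * g⁻¹ * η = (η⁻¹ * g * η)⁻¹ := by group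
    rw [h2, inv_eq_iff_eq_inv]
  unfold symCnt
  simp only [Pi.add_apply]
  unfold oddCnt
  rw [h1, h1, h1, h1, cmul_inv hc, cmul_inv hc, inv_inv]
  ring

theorem symCnt_cmul {c : G} (hc : IsConjugation c) (z g : G) :
    symCnt c z (c * g) = - symCnt c z g := by
  unfold symCnt
  simp only [Pi.add_apply]
  rw [oddCnt_cmul hc, oddCnt_cmul hc]
  ring

omit [Fintype G] in
theorem isConj_inv {a b : G} (h : IsConj a b) : IsConj a⁻¹ b⁻¹ := by
  obtain ⟨x, hx⟩ := isConj_iff.1 h
  rw [isConj_iff]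
  exact ⟨x, by rw [← hx]; group⟩

theorem goodForHeights_of_rational {c : G} (hc : IsConjugation c)
    (h : ∀ z, IsRational (symCnt c z)) : IsGoodForHeights c := by
  intro g y hz
  by_cases hgy : IsConj g y ∨ IsConj g⁻¹ y
  · exact Or.inl hgy
  right
  by_cases hgc : IsConj g (c * g) ∨ IsConj g⁻¹ (c * g)
  · exact Or.inl hgc
  right
  rw [not_or] at hgy hgc
  have hval : ∀ z x, symCnt c z x = cnt z x - cnt (c * z) x + (cnt z⁻¹ x - cnt (c * z⁻¹) x) :=
    fun _ _ => rfl
  have hne : linearPart (symCnt c g) g ≠ linearPart (symCnt c g) y := by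
    intro he
    have h1 := h g g y hz
    rw [he] at h1
    have h2 : symCnt c g g = symCnt c g y := by linarith
    rw [hval, hval, cnt_eq_zero hgc.1, cnt_eq_zero (z := c * g⁻¹) (g := g),
      cnt_eq_zero (z := g) (g := y) fun h' => hgy.1 h'.symm,
      cnt_eq_zero (z := g⁻¹) (g := y) fun h' => hgy.2 h'.symm] at h2
    · have h3 := cnt_pos (IsConj.refl g)
      have h4 := cnt_nonneg (c * g) y
      have h5 := cnt_nonneg (c * g⁻¹) y
      have h6 := cnt_nonneg g⁻¹ g
      linarith
    · intro h'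
      exact hgc.2 (isConj_cmul hc h').symm
  have hq : ((g⁻¹ : G) : G ⧸ commutator G) ≠ ((c * g : G) : G ⧸ commutator G) := by
    intro hq
    apply hne
    have z1 : linearPart (symCnt c g) g = 0 := by
      have h1 := linearPart_compl (f := symCnt c g) (c := c) (k := 0)
        (fun x => by rw [symCnt_cmul hc]; ring) g
      have h2 := linearPart_inv (symCnt_inv hc g) g
      rw [linearPart_of_mk hq] at h2
      linarith
    have z2 : linearPart (symCnt c g) y = 0 := by
      obtain ⟨m, hm, rfl⟩ := exists_pow hz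
      have h1 := linearPart_compl (f := symCnt c g) (c := c) (k := 0)
        (fun x => by rw [symCnt_cmul hc]; ring) (g ^ m)
      have h2 := linearPart_inv (symCnt_inv hc g) (g ^ m)
      have hq' : (((g ^ m)⁻¹ : G) : G ⧸ commutator G) =
          ((c * g ^ m : G) : G ⧸ commutator G) := by
        rw [← cmul_pow hc hm, ← inv_pow, QuotientGroup.mk_pow, QuotientGroup.mk_pow, hq]
      rw [linearPart_of_mk hq'] at h2
      linarith
    rw [z1, z2]
  have hcD : c ∉ commutator G := by
    intro hcD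
    apply hne
    rw [linearPart_odd_zero hc hcD (symCnt_cmul hc g),
      linearPart_odd_zero hc hcD (symCnt_cmul hc g)]
  have hD : (g : G ⧸ commutator G) ≠ (y : G ⧸ commutator G) := fun he => hne (linearPart_of_mk he)
  have hD' : ((g⁻¹ : G) : G ⧸ commutator G) ≠ (y : G ⧸ commutator G) := by
    intro he
    apply hne
    rw [← linearPart_inv (symCnt_inv hc g) g]
    exact linearPart_of_mk he
  intro u hu
  by_contra hcon
  push Not at hcon
  obtain ⟨⟨hu1, hu1'⟩, hu2, hu2'⟩ := hcon
  have hpos := card_comm_pos (G := G)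
  set z := g * u with hzdef
  have hzg : (z : G ⧸ commutator G) = (g : G ⧸ commutator G) := mk_mul_mem g hu
  have hzg' : ((z⁻¹ : G) : G ⧸ commutator G) = ((g⁻¹ : G) : G ⧸ commutator G) := by
    rw [QuotientGroup.mk_inv, QuotientGroup.mk_inv, hzg]
  have h1 := h z g y hz
  -- no element of the coset of `g` is conjugate to `c z` or `c z⁻¹`
  have n1 : ∀ x : G, (x : G ⧸ commutator G) = (g : G ⧸ commutator G) → cnt (c * z) x = 0 := by
    intro x hx
    apply cnt_eq_zero
    intro h'
    have h2 := mk_of_isConj h'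
    have h3 : ((c * z : G) : G ⧸ commutator G) = ((c * g : G) : G ⧸ commutator G) :=
      mk_cmul_iff.2 hzg
    rw [hx, h3] at h2
    exact mk_cmul hcD hc g h2.symm
  have n2 : ∀ x : G, (x : G ⧸ commutator G) = (g : G ⧸ commutator G) →
      cnt (c * z⁻¹) x = 0 := by
    intro x hx
    apply cnt_eq_zero
    intro h'
    have h2 := mk_of_isConj (isConj_cmul hc h')
    have h3 : ((c * x : G) : G ⧸ commutator G) = ((c * g : G) : G ⧸ commutator G) :=
      mk_cmul_iff.2 hx
    rw [h3, hzg'] at h2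
    exact hq h2.symm
  have e1 : symCnt c z g = 0 := by
    rw [hval, cnt_eq_zero fun h' => hu1 h'.symm, n1 g rfl, n2 g rfl,
      cnt_eq_zero (z := z⁻¹)]
    · ring
    · intro h'
      have := isConj_inv h'
      rw [inv_inv] at this
      exact hu1' this.symm
  have e2 : symCnt c z y = 0 := by
    rw [hval, cnt_eq_zero (z := z), cnt_eq_zero (z := c * z), cnt_eq_zero (z := z⁻¹),
      cnt_eq_zero (z := c * z⁻¹)]
    · ring
    · intro h'
      have h2 := isConj_inv (isConj_cmul hc h')
      rw [inv_inv, cmul_inv hc] at h2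
      exact hu2' h2.symm
    · intro h'
      have h2 := mk_of_isConj h'
      rw [hzg'] at h2
      exact hD' h2.symm
    · intro h'
      exact hu2 (isConj_cmul hc h').symm
    · intro h'
      have h2 := mk_of_isConj h'
      rw [hzg] at h2
      exact hD h2.symm
  have e3 : 0 < linearPart (symCnt c z) g := by
    unfold linearPart
    refine div_pos ?_ hpos
    refine Finset.sum_pos' ?_ ⟨⟨u, hu⟩, Finset.mem_univ _, ?_⟩
    · intro v _
      have hv : ((g * v : G) : G ⧸ commutator G) = (g : G ⧸ commutator G) := mk_mul_mem g v.2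
      rw [hval, n1 _ hv, n2 _ hv]
      have := cnt_nonneg z (g * v)
      have := cnt_nonneg z⁻¹ (g * v)
      linarith
    · change 0 < symCnt c z z
      rw [hval, n1 _ hzg, n2 _ hzg]
      have := cnt_pos (IsConj.refl z)
      have := cnt_nonneg z⁻¹ z
      linarith
  have e4 : linearPart (symCnt c z) y ≤ 0 := by
    unfold linearPart
    refine div_nonpos_of_nonpos_of_nonneg ?_ hpos.le
    refine Finset.sum_nonpos fun v _ => ?_
    rw [hval, cnt_eq_zero (z := z), cnt_eq_zero (z := z⁻¹)]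
    · have := cnt_nonneg (c * z) (y * v)
      have := cnt_nonneg (c * z⁻¹) (y * v)
      linarith
    · intro h'
      have h2 := mk_of_isConj h'
      rw [hzg', mk_mul_mem y v.2] at h2
      exact hD' h2.symm
    · intro h'
      have h2 := mk_of_isConj h'
      rw [hzg, mk_mul_mem y v.2] at h2
      exact hD h2.symm
  rw [e1, e2] at h1
  linarith

end Pool.Agent.TH117.CZ
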