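import Pool.Agent.TH117.CZ.Converse

/-!
# The criterion for the Faltings height: sufficiency
-/

set_option autoImplicit false

namespace Pool.Agent.TH117.CZ

open scoped Classical commutatorElement

variable {G : Type} [Group G] [Fintype G]

theorem conj_phi {c : G} (hc : IsConjugation c) {m : ℕ} (hm : m.Coprime (Fintype.card G))
    (g z : G) : IsConj g z ↔ IsConj (c * g ^ m) (c * z ^ m) := by
  constructor
  · intro h
    obtain ⟨x, hx⟩ := isConj_iff.1 h
    rw [isConj_iff]
    refine ⟨x, ?_⟩
    rw [← hx, conj_pow, ← mul_assoc, ← hc.central x]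
    group
  · intro h
    obtain ⟨x, hx⟩ := isConj_iff.1 h
    rw [isConj_iff]
    refine ⟨x, pow_injective hm ?_⟩
    have h1 : x * (c * g ^ m) * x⁻¹ = c * (x * g * x⁻¹) ^ m := by
      rw [conj_pow, ← mul_assoc, ← hc.central x]
      group
    rw [h1] at hx
    exact mul_left_cancel hx

theorem mk_pow_iff {m : ℕ} (hm : m.Coprime (Fintype.card G)) (g z : G) :
    ((g ^ m : G) : G ⧸ commutator G) = ((z ^ m : G) : G ⧸ commutator G) ↔
      (g : G ⧸ commutator G) = (z : G ⧸ commutator G) := by
  constructor
  · intro h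
    rw [QuotientGroup.mk_pow, QuotientGroup.mk_pow] at h
    have h1 : (Nat.card (G ⧸ commutator G)).Coprime m := by
      refine Nat.Coprime.coprime_dvd_left (Subgroup.card_quotient_dvd_card (commutator G)) ?_
      rw [Nat.card_eq_fintype_card]
      exact hm.symm
    exact (powCoprime h1).injective h
  · intro h
    rw [QuotientGroup.mk_pow, QuotientGroup.mk_pow, h]

omit [Fintype G] in
theorem mk_cmul_iff {c g z : G} : (((c * g : G) : G ⧸ commutator G) =
    ((c * z : G) : G ⧸ commutator G)) ↔ (g : G ⧸ commutator G) = (z : G ⧸ commutator G) := by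
  rw [QuotientGroup.eq, QuotientGroup.eq]
  have : (c * g)⁻¹ * (c * z) = g⁻¹ * z := by group
  rw [this]

omit [Fintype G] in
theorem cmul_inv {c : G} (hc : IsConjugation c) (g : G) : (c * g)⁻¹ = c * g⁻¹ := by
  rw [mul_inv_rev, inv_eq_self hc, ← hc.central]

/-- The elements of the coset which are conjugate to `g` or its inverse are as many as those which
are conjugate to `c g ^ m` or its inverse. -/
theorem count_sym {c : G} (hc : IsConjugation c) {m : ℕ} (hm : m.Coprime (Fintype.card G)) {g : G}
    (hq : (g : G ⧸ commutator G) = ((c * g ^ m : G) : G ⧸ commutator G)) :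
    (∑ z : G, if g⁻¹ * z ∈ commutator G ∧ (IsConj g z ∨ IsConj g⁻¹ z) then (1 : ℚ) else 0) =
    ∑ z : G, if g⁻¹ * z ∈ commutator G ∧
      (IsConj (c * g ^ m) z ∨ IsConj (c * g ^ m)⁻¹ z) then (1 : ℚ) else 0 := by
  have hb : Function.Bijective fun z : G => c * z ^ m :=
    (Group.mulLeft_bijective c).comp
      (Finite.injective_iff_bijective.1 (pow_injective hm))
  refine Fintype.sum_bijective _ hb _ _ fun z => if_congr ?_ rfl rfl
  have h1 : g⁻¹ * z ∈ commutator G ↔ g⁻¹ * (c * z ^ m) ∈ commutator G := by
    rw [← QuotientGroup.eq, ← QuotientGroup.eq, hq, mk_cmul_iff, mk_pow_iff hm, ← hq]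
  rw [h1, conj_phi hc hm g z, conj_phi hc hm g⁻¹ z, cmul_inv hc, inv_pow]

theorem sym_at {c : G} (hc : IsConjugation c) {F : G → ℚ} (hF : IsClassFn F) {k : ℚ}
    (hk : ∀ g, F g + F (c * g) = k) (hs : ∀ g, F g⁻¹ = F g) {g y : G}
    (hz : Subgroup.zpowers g = Subgroup.zpowers y)
    (hq : (g : G ⧸ commutator G) = ((c * y : G) : G ⧸ commutator G))
    (hnot : ¬ (IsConj g (c * y) ∨ IsConj g⁻¹ (c * y)))
    (h : ∀ u ∈ commutator G, (IsConj (g * u) g ∨ IsConj (g * u) g⁻¹) ∨
        (IsConj (g * u) (c * y) ∨ IsConj (g * u) (c * y⁻¹))) :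
    F g - linearPart F g = F y - linearPart F y := by
  have hl := linearPart_compl hk
  have hD := card_comm_pos (G := G)
  obtain ⟨m, hm, rfl⟩ := exists_pow hz
  rw [not_or] at hnot
  have hsum : ∀ f : G → ℚ, IsClassFn f → (∀ g, f g⁻¹ = f g) → (∑ u : commutator G, f (g * u)) =
      (∑ z : G, if g⁻¹ * z ∈ commutator G ∧ (IsConj g z ∨ IsConj g⁻¹ z) then (1 : ℚ) else 0) *
        (f g + f (c * g ^ m)) := by
    intro f hf hfs
    rw [sum_coset]
    have e1 : ∀ z : G, (if g⁻¹ * z ∈ commutator G then f z else 0) =
        (if g⁻¹ * z ∈ commutator G ∧ (IsConj g z ∨ IsConj g⁻¹ z) then (1 : ℚ) else 0) * f g +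
        (if g⁻¹ * z ∈ commutator G ∧
          (IsConj (c * g ^ m) z ∨ IsConj (c * g ^ m)⁻¹ z) then (1 : ℚ) else 0) *
            f (c * g ^ m) := by
      intro z
      by_cases hzD : g⁻¹ * z ∈ commutator G
      · have hcase : (IsConj g z ∨ IsConj g⁻¹ z) ∨
            (IsConj (c * g ^ m) z ∨ IsConj (c * g ^ m)⁻¹ z) := by
          have h1 := h _ hzD
          rw [mul_inv_cancel_left] at h1
          rw [cmul_inv hc]
          rcases h1 with (h1 | h1) | (h1 | h1)
          · exact Or.inl (Or.inl h1.symm)
          · exact Or.inl (Or.inr h1.symm)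
          · exact Or.inr (Or.inl h1.symm)
          · exact Or.inr (Or.inr h1.symm)
        have hinvc : ∀ a b : G, IsConj a⁻¹ b → IsConj a b⁻¹ := by
          intro a b hab
          obtain ⟨x, hx⟩ := isConj_iff.1 hab
          rw [isConj_iff]
          exact ⟨x, by rw [← hx]; group⟩
        have hinvc' : ∀ a b : G, IsConj a b⁻¹ → IsConj a⁻¹ b := by
          intro a b hab
          obtain ⟨x, hx⟩ := isConj_iff.1 hab
          rw [isConj_iff]
          exact ⟨x, by rw [← inv_inv b, ← hx]; group⟩
        by_cases hz1 : IsConj g z ∨ IsConj g⁻¹ z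
        · have hz2 : ¬ (IsConj (c * g ^ m) z ∨ IsConj (c * g ^ m)⁻¹ z) := by
            rintro (h2 | h2)
            · rcases hz1 with h3 | h3
              · exact hnot.1 (h3.trans h2.symm)
              · exact hnot.2 (h3.trans h2.symm)
            · rcases hz1 with h3 | h3
              · exact hnot.2 (hinvc' _ _ (h3.trans h2.symm))
              · exact hnot.1 (by
                  have := hinvc _ _ (h3.trans h2.symm)
                  rwa [inv_inv] at this)
          have hfz : f z = f g := by
            rcases hz1 with h3 | h3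
            · exact classFn_of_isConj hf h3
            · rw [classFn_of_isConj hf h3, hfs]
          rw [if_pos hzD, if_pos ⟨hzD, hz1⟩, if_neg fun h' => hz2 h'.2, hfz]
          ring
        · have hz2 := hcase.resolve_left hz1
          have hfz : f z = f (c * g ^ m) := by
            rcases hz2 with h3 | h3
            · exact classFn_of_isConj hf h3
            · rw [classFn_of_isConj hf h3, hfs]
          rw [if_pos hzD, if_neg fun h' => hz1 h'.2, if_pos ⟨hzD, hz2⟩, hfz]
          ring
      · rw [if_neg hzD, if_neg fun h' => hzD h'.1, if_neg fun h' => hzD h'.1]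
        ring
    rw [Finset.sum_congr rfl fun z _ => e1 z, Finset.sum_add_distrib, ← Finset.sum_mul,
      ← Finset.sum_mul, ← count_sym hc hm hq]
    ring
  have h1 := hsum (fun _ => 1) (fun _ _ => rfl) fun _ => rfl
  have h2 := hsum F hF hs
  rw [Finset.sum_const, Finset.card_univ, nsmul_eq_mul] at h1
  have h3 : linearPart F g = (F g + F (c * g ^ m)) / 2 := by
    have h4 : linearPart F g = (∑ u : commutator G, F (g * u)) / Fintype.card (commutator G) := rfl
    rw [h4, h2, div_eq_iff hD.ne']
    generalize (∑ z : G, if g⁻¹ * z ∈ commutator G ∧ (IsConj g z ∨ IsConj g⁻¹ z) then (1 : ℚ)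
      else 0) = n at h1 h2 ⊢
    have : (Fintype.card (commutator G) : ℚ) = n * 2 := by linarith
    rw [this]
    ring
  have hL : linearPart F g = linearPart F (c * g ^ m) := linearPart_of_mk hq
  have f1 := hk (g ^ m)
  have f2 := hl (g ^ m)
  linarith

theorem isRational_sym {c : G} (hc : IsConjugation c) {F : G → ℚ} (hF : IsClassFn F) {k : ℚ}
    (hk : ∀ g, F g + F (c * g) = k) (hs : ∀ g, F g⁻¹ = F g) {g y : G}
    (hz : Subgroup.zpowers g = Subgroup.zpowers y)
    (h : (IsConj g y ∨ IsConj g⁻¹ y) ∨ (IsConj g (c * g) ∨ IsConj g⁻¹ (c * g)) ∨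
      ∀ u ∈ commutator G, (IsConj (g * u) g ∨ IsConj (g * u) g⁻¹) ∨
        (IsConj (g * u) (c * y) ∨ IsConj (g * u) (c * y⁻¹))) :
    F g - linearPart F g = F y - linearPart F y := by
  have hlF : IsClassFn (linearPart F) := linearPart_class F
  have hls := linearPart_inv hs
  have hl := linearPart_compl hk
  have hD := card_comm_pos (G := G)
  rcases h with (h | h) | (h | h) | h
  · rw [classFn_of_isConj hF h, classFn_of_isConj hlF h]
  · rw [classFn_of_isConj hF h, classFn_of_isConj hlF h, hs, hls]
  · exact isRational_at hc hF hk hz (Or.inr (Or.inl h))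
  · obtain ⟨m, hm, rfl⟩ := exists_pow hz
    have h' : IsConj (g ^ m)⁻¹ (c * g ^ m) := by
      obtain ⟨x, hx⟩ := isConj_iff.1 h
      rw [isConj_iff]
      exact ⟨x, by rw [← cmul_pow hc hm, ← hx, conj_pow, inv_pow]⟩
    have e1 := classFn_of_isConj hF h
    have e2 := classFn_of_isConj hlF h
    have e3 := classFn_of_isConj hF h'
    have e4 := classFn_of_isConj hlF h'
    rw [hs] at e1 e3
    rw [hls] at e2 e4
    have f1 := hk g
    have f2 := hl g
    have f3 := hk (g ^ m)
    have f4 := hl (g ^ m)
    linarith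
  · by_cases hall : ∀ u ∈ commutator G, IsConj (g * u) g ∨ IsConj (g * u) g⁻¹
    · obtain ⟨m, hm, rfl⟩ := exists_pow hz
      have e1 : ∀ u : commutator G, F (g * u) = F g := by
        intro u
        rcases hall u u.2 with h1 | h1
        · exact (classFn_of_isConj hF h1).symm
        · rw [← hs g]; exact (classFn_of_isConj hF h1).symm
      have e2 : ∀ u : commutator G, F ((g * u) ^ m) = F (g ^ m) := by
        intro u
        rcases hall u u.2 with h1 | h1
        · symm
          apply classFn_of_isConj hF
          obtain ⟨x, hx⟩ := isConj_iff.1 h1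
          rw [isConj_iff]
          exact ⟨x, by rw [← conj_pow, hx]⟩
        · rw [← hs (g ^ m)]
          symm
          apply classFn_of_isConj hF
          obtain ⟨x, hx⟩ := isConj_iff.1 h1
          rw [isConj_iff]
          exact ⟨x, by rw [← conj_pow, hx, inv_pow]⟩
      have e3 : linearPart F g = F g := by
        unfold linearPart
        rw [Finset.sum_congr rfl fun u _ => e1 u, Finset.sum_const, Finset.card_univ,
          nsmul_eq_mul]
        field_simp
      have e4 : linearPart F (g ^ m) = F (g ^ m) := by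
        unfold linearPart
        rw [← sum_pow_coset hm F g, Finset.sum_congr rfl fun u _ => e2 u, Finset.sum_const,
          Finset.card_univ, nsmul_eq_mul]
        field_simp
      rw [e3, e4, sub_self, sub_self]
    · push Not at hall
      obtain ⟨u, hu, hug, hug'⟩ := hall
      rcases h u hu with (h1 | h1) | (h1 | h1)
      · exact absurd h1 hug
      · exact absurd h1 hug'
      · refine sym_at hc hF hk hs hz ?_ ?_ h
        · rw [← mk_of_isConj h1]; exact (mk_mul_mem g hu).symm
        · rintro (h2 | h2)
          · exact hug (h1.trans h2.symm)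
          · exact hug' (h1.trans h2.symm)
      · have hz' : Subgroup.zpowers g = Subgroup.zpowers y⁻¹ := by
          rw [Subgroup.zpowers_inv]; exact hz
        have h3 := sym_at hc hF hk hs hz' (y := y⁻¹) ?_ ?_ ?_
        · rw [hs, hls] at h3; exact h3
        · rw [← mk_of_isConj h1]; exact (mk_mul_mem g hu).symm
        · rintro (h2 | h2)
          · exact hug (h1.trans h2.symm)
          · exact hug' (h1.trans h2.symm)
        · intro v hv
          rw [inv_inv]
          rcases h v hv with h4 | (h4 | h4)
          · exact Or.inl h4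
          · exact Or.inr (Or.inr h4)
          · exact Or.inr (Or.inl h4)

theorem isRational_of_goodForHeights {c : G} (hc : IsConjugation c) (h : IsGoodForHeights c)
    {F : G → ℚ} (hF : IsClassFn F) {k : ℚ} (hk : ∀ g, F g + F (c * g) = k)
    (hs : ∀ g, F g⁻¹ = F g) : IsRational F :=
  fun g y hz => isRational_sym hc hF hk hs hz (h g y hz)

end Pool.Agent.TH117.CZ
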