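import Pool.Agent.TH117.CZ.Types

/-!
# The class functions in the span of the known ones
-/

set_option autoImplicit false

namespace Pool.Agent.TH117.CZ

open scoped Classical commutatorElement

variable {G : Type} [Group G] [Fintype G]

/-- The odd part. -/
noncomputable def odd (c : G) : (G → ℚ) →ₗ[ℚ] (G → ℚ) where
  toFun f g := (f g - f (c * g)) / 2
  map_add' f f' := by funext g; simp only [Pi.add_apply]; ring
  map_smul' a f := by
    funext g; simp only [Pi.smul_apply, smul_eq_mul, RingHom.id_apply]; ring

theorem const_mem (c : G) (k : ℚ) : (fun _ => k : G → ℚ) ∈ knownSpan c := by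
  have h1 : (fun _ => (1 : ℚ) : G → ℚ) ∈ knownSpan c := Submodule.subset_span IsKnown.one
  have h2 := Submodule.smul_mem (knownSpan c) k h1
  have h3 : (k • (fun _ => (1 : ℚ) : G → ℚ)) = fun _ => k := by
    funext g; simp
  rwa [h3] at h2

omit [Fintype G] in
theorem conj_c_mul {c : G} (hc : IsConjugation c) (g η : G) :
    η⁻¹ * (c * g) * η = c * (η⁻¹ * g * η) := by
  rw [← mul_assoc, ← hc.central η⁻¹]
  group

theorem odd_hs_mem {c : G} (hc : IsConjugation c) (H : Subgroup G) :
    odd c (hs H) ∈ knownSpan c := by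
  have hN : (0 : ℚ) < Fintype.card G := card_pos'
  by_cases hH : c ∈ H
  · have : odd c (hs H) = 0 := by
      funext g
      change (hs H g - hs H (c * g)) / 2 = 0
      have : hs H (c * g) = hs H g := by
        unfold hs
        refine Finset.sum_congr rfl fun η _ => if_congr ?_ rfl rfl
        rw [conj_c_mul hc]
        exact Subgroup.mul_mem_cancel_left H hH
      rw [this, sub_self, zero_div]
    rw [this]; exact Submodule.zero_mem _
  · have hM : (0 : ℚ) < (cmTypes hc H).card := card_cmTypes_pos hc hH
    have hK : (0 : ℚ) < Fintype.card (G ⧸ H) := by exact_mod_cast Fintype.card_pos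
    have h1 : averaged c H ∈ knownSpan c := Submodule.subset_span (IsKnown.average H hH)
    have h2 : odd c (hs H) = (2 * (Fintype.card G : ℚ) /
        ((cmTypes hc H).card * Fintype.card (G ⧸ H))) • averaged c H -
        fun _ => (Fintype.card G : ℚ) / 2 := by
      funext g
      change (hs H g - hs H (c * g)) / 2 = _ * averaged c H g - _
      rw [averaged_eq hc hH]
      field_simp
      ring
    rw [h2]
    exact Submodule.sub_mem _ (Submodule.smul_mem _ _ h1) (const_mem c _)

theorem mem_of_isPow {c : G} (hc : IsConjugation c) {f : G → ℚ} (hf : IsClassFn f)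
    (hp : IsPow f) (ho : ∀ g, f (c * g) = - f g) : f ∈ knownSpan c := by
  have h := artin hf hp
  have h2 : odd c f = f := by
    funext g
    change (f g - f (c * g)) / 2 = f g
    rw [ho]; ring
  rw [← h2]
  have h3 : Submodule.map (odd c)
      (Submodule.span ℚ (Set.range fun y : G => hs (Subgroup.zpowers y))) ≤ knownSpan c := by
    rw [Submodule.map_span, Submodule.span_le]
    rintro _ ⟨_, ⟨y, rfl⟩, rfl⟩
    exact odd_hs_mem hc _
  exact h3 (Submodule.mem_map_of_mem h)

/-! ### The abelian part -/

omit [Fintype G] in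
theorem conj_eq_mk (g η : G) :
    ((η⁻¹ * g * η : G) : G ⧸ commutator G) = (g : G ⧸ commutator G) := by
  rw [QuotientGroup.eq]
  have h : (η⁻¹ * g * η)⁻¹ * g = ⁅η⁻¹, g⁻¹⁆ := by
    rw [commutatorElement_def]; group
  rw [h, commutator_def]
  exact Subgroup.commutator_mem_commutator trivial trivial

theorem a0_commutator (Φ : Finset (G ⧸ commutator G)) (g : G) :
    a0 ((1 : G) : G ⧸ commutator G) Φ g = if (g : G ⧸ commutator G) ∈ Φ then 1 else 0 := by
  have hN : (0 : ℚ) < Fintype.card G := card_pos'
  have h1 : ∀ η : G, (η⁻¹ * g * η) • ((1 : G) : G ⧸ commutator G) = (g : G ⧸ commutator G) := by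
    intro η
    have h2 : (η⁻¹ * g * η) • ((1 : G) : G ⧸ commutator G) =
      ((η⁻¹ * g * η * 1 : G) : G ⧸ commutator G) := rfl
    rw [h2, mul_one, conj_eq_mk]
  unfold a0
  by_cases h : (g : G ⧸ commutator G) ∈ Φ
  · rw [if_pos h, Finset.filter_true_of_mem fun η _ => by rw [h1]; exact h, Finset.card_univ]
    field_simp
  · rw [if_neg h, Finset.filter_false_of_mem fun η _ => by rw [h1]; exact h]
    simp

/-- The indicator function of a coset. -/
noncomputable def delta (y : G ⧸ commutator G) (g : G) : ℚ :=
  if (g : G ⧸ commutator G) = y then 1 else 0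

theorem delta_sub_mem {c : G} (hc : IsConjugation c) (hcD : c ∉ commutator G)
    (y : G ⧸ commutator G) : delta y - delta (c • y) ∈ knownSpan c := by
  obtain ⟨Φ, hΦ⟩ := exists_isCMType hc hcD
  have key : ∀ y, y ∈ Φ → delta y - delta (c • y) ∈ knownSpan c := by
    intro y hy
    have hcy : c • y ∉ Φ := (hΦ y).1 hy
    have h1 : a0 ((1 : G) : G ⧸ commutator G) Φ ∈ knownSpan c :=
      Submodule.subset_span (IsKnown.abelian _ hcD le_rfl _ _ hΦ)
    have h2 : a0 ((1 : G) : G ⧸ commutator G) (swap hc y Φ) ∈ knownSpan c :=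
      Submodule.subset_span (IsKnown.abelian _ hcD le_rfl _ _ (swap_isCMType hc y hΦ))
    have h3 : delta y - delta (c • y) = a0 ((1 : G) : G ⧸ commutator G) Φ -
        a0 ((1 : G) : G ⧸ commutator G) (swap hc y Φ) := by
      funext g
      rw [Pi.sub_apply, Pi.sub_apply, a0_commutator, a0_commutator]
      unfold delta
      have h4 : ((g : G ⧸ commutator G) ∈ swap hc y Φ) ↔ _ := mem_swap hc
      by_cases e1 : (g : G ⧸ commutator G) = y
      · have e2 : (g : G ⧸ commutator G) ≠ c • y := by
          rw [e1]; exact (smul_ne hc hcD y).symm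
        rw [if_pos (Or.inl e1)] at h4
        rw [if_pos e1, if_neg e2, if_pos (by rw [e1]; exact hy), if_neg (by
          rw [h4, not_not, e1]; exact hy)]
      · by_cases e2 : (g : G ⧸ commutator G) = c • y
        · rw [if_pos (Or.inr e2)] at h4
          rw [if_neg e1, if_pos e2, if_neg (by rw [e2]; exact hcy), if_pos (by
            rw [h4, e2]; exact hcy)]
        · rw [if_neg (by rintro (h | h); exacts [e1 h, e2 h])] at h4
          rw [if_neg e1, if_neg e2, if_congr h4 rfl rfl]
          ring
    rw [h3]
    exact Submodule.sub_mem _ h1 h2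
  by_cases hy : y ∈ Φ
  · exact key y hy
  · have h := key (c • y) (by
      have := hΦ y
      tauto)
    rw [smul_smul_self hc] at h
    have := Submodule.neg_mem _ h
    rwa [neg_sub] at this

theorem mem_of_abelian {c : G} (hc : IsConjugation c) (hcD : c ∉ commutator G) {f : G → ℚ}
    (hf : ∀ g, ∀ u ∈ commutator G, f (g * u) = f g) (ho : ∀ g, f (c * g) = - f g) :
    f ∈ knownSpan c := by
  have h1 : f = ∑ y : G ⧸ commutator G, (f (Quotient.out y) / 2) • (delta y - delta (c • y)) := by
    funext g
    rw [Finset.sum_apply]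
    have h2 : ∀ y : G ⧸ commutator G,
        ((f (Quotient.out y) / 2) • (delta y - delta (c • y))) g =
        (if y = (g : G ⧸ commutator G) then f g / 2 else 0) +
        (if y = c • (g : G ⧸ commutator G) then f g / 2 else 0) := by
      intro y
      rw [Pi.smul_apply, Pi.sub_apply, smul_eq_mul]
      unfold delta
      have hout : ∀ x : G, f (Quotient.out (x : G ⧸ commutator G)) = f x := by
        intro x
        obtain ⟨u, hu⟩ := QuotientGroup.mk_out_eq_mul (commutator G) x
        rw [hu, hf x u u.2]
      by_cases e1 : y = (g : G ⧸ commutator G)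
      · have e2 : y ≠ c • (g : G ⧸ commutator G) := by
          rw [e1]; exact (smul_ne hc hcD _).symm
        have e3 : (g : G ⧸ commutator G) ≠ c • y := by
          rw [e1]; exact (smul_ne hc hcD _).symm
        rw [if_pos e1, if_neg e2, if_pos e1.symm, if_neg e3, e1, hout]
        ring
      · by_cases e2 : y = c • (g : G ⧸ commutator G)
        · have e3 : (g : G ⧸ commutator G) = c • y := by
            rw [e2, smul_smul_self hc]
          rw [if_neg e1, if_pos e2, if_neg fun h => e1 h.symm, if_pos e3, e2]
          have e4 : c • (g : G ⧸ commutator G) = ((c * g : G) : G ⧸ commutator G) := rfl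
          rw [e4, hout, ho]
          ring
        · have e3 : (g : G ⧸ commutator G) ≠ c • y := fun h =>
            e2 ((smul_eq_iff hc _ _).1 h.symm)
          rw [if_neg e1, if_neg e2, if_neg fun h => e1 h.symm, if_neg e3]
          ring
    rw [Finset.sum_congr rfl fun y _ => h2 y, Finset.sum_add_distrib, Finset.sum_ite_eq',
      Finset.sum_ite_eq', if_pos (Finset.mem_univ _), if_pos (Finset.mem_univ _)]
    ring
  rw [h1]
  exact Submodule.sum_mem _ fun y _ => Submodule.smul_mem _ _ (delta_sub_mem hc hcD y)

/-! ### Means over the cosets of the commutator subgroup -/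

theorem linearPart_mul (f : G → ℚ) (g : G) {u : G} (hu : u ∈ commutator G) :
    linearPart f (g * u) = linearPart f g := by
  unfold linearPart
  congr 1
  refine Fintype.sum_equiv (Equiv.mulLeft (⟨u, hu⟩ : commutator G)) _ _ fun w => ?_
  rw [mul_assoc]
  rfl

theorem card_comm_pos : (0 : ℚ) < Fintype.card (commutator G) := by
  exact_mod_cast Fintype.card_pos

theorem linearPart_of_inv {f : G → ℚ} (hf : ∀ g, ∀ u ∈ commutator G, f (g * u) = f g) :
    linearPart f = f := by
  funext g
  unfold linearPart
  rw [Finset.sum_congr rfl fun (u : commutator G) _ => hf g u u.2, Finset.sum_const,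
    Finset.card_univ, nsmul_eq_mul]
  have := card_comm_pos (G := G)
  field_simp

theorem linearPart_class (f : G → ℚ) (x g : G) :
    linearPart f (x⁻¹ * g * x) = linearPart f g := by
  have h : x⁻¹ * g * x = g * ⁅g⁻¹, x⁻¹⁆ := by rw [commutatorElement_def]; group
  rw [h]
  refine linearPart_mul f g ?_
  rw [commutator_def]
  exact Subgroup.commutator_mem_commutator trivial trivial

theorem linearPart_add (f f' : G → ℚ) : linearPart (f + f') = linearPart f + linearPart f' := by
  funext g
  simp only [linearPart, Pi.add_apply, Finset.sum_add_distrib, add_div]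

theorem linearPart_smul (a : ℚ) (f : G → ℚ) : linearPart (a • f) = a • linearPart f := by
  funext g
  simp only [linearPart, Pi.smul_apply, smul_eq_mul, ← Finset.mul_sum, mul_div_assoc]

theorem linearPart_compl {f : G → ℚ} {c : G} {k : ℚ} (hk : ∀ g, f g + f (c * g) = k) (g : G) :
    linearPart f g + linearPart f (c * g) = k := by
  have h1 : ∀ u : commutator G, f (g * u) + f (c * g * u) = k := by
    intro u
    rw [mul_assoc c g (u : G)]; exact hk (g * u)
  unfold linearPart
  rw [← add_div, ← Finset.sum_add_distrib]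
  rw [Finset.sum_congr rfl fun (u : commutator G) _ => h1 u]
  rw [Finset.sum_const, Finset.card_univ, nsmul_eq_mul]
  have := card_comm_pos (G := G)
  field_simp

/-! ### Powers -/

theorem zpowers_pow {k : ℕ} (hk : k.Coprime (Fintype.card G)) (g : G) :
    Subgroup.zpowers (g ^ k) = Subgroup.zpowers g := by
  refine zpowers_eq_of_mem (Subgroup.mem_zpowers_iff.2 ⟨k, by simp⟩) ?_
  refine Nat.Coprime.orderOf_pow ?_
  exact (Nat.Coprime.coprime_dvd_left orderOf_dvd_card hk.symm)

theorem exists_pow {g y : G} (h : Subgroup.zpowers g = Subgroup.zpowers y) :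
    ∃ k : ℕ, k.Coprime (Fintype.card G) ∧ g ^ k = y := by
  have h1 : y ∈ Submonoid.powers g := by
    rw [mem_powers_iff_mem_zpowers, h]; exact Subgroup.mem_zpowers y
  obtain ⟨m, hm⟩ := Submonoid.mem_powers_iff y g |>.1 h1
  have h2 : m.Coprime (orderOf g) := by
    have h3 : orderOf (g ^ m) = orderOf g := by rw [hm, orderOf_zpowers h]
    rw [orderOf_pow] at h3
    have h4 : 0 < orderOf g := orderOf_pos g
    have h8 : (orderOf g).gcd m = 1 := (Nat.div_eq_self.1 h3).resolve_left h4.ne'
    exact (Nat.coprime_comm.1 h8)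
  have : NeZero (Fintype.card G) := ⟨Fintype.card_ne_zero⟩
  have : NeZero (orderOf g) := ⟨(orderOf_pos g).ne'⟩
  obtain ⟨v, hv⟩ := ZMod.unitsMap_surjective (m := Fintype.card G) (orderOf_dvd_card (x := g))
    (ZMod.unitOfCoprime m h2)
  refine ⟨(v : ZMod (Fintype.card G)).val, ZMod.val_coe_unit_coprime v, ?_⟩
  rw [← hm, pow_eq_pow_iff_modEq, ← ZMod.natCast_eq_natCast_iff]
  have h9 := congrArg (fun w : (ZMod (orderOf g))ˣ => (w : ZMod (orderOf g))) hv
  simp only [ZMod.unitsMap_val, ZMod.coe_unitOfCoprime] at h9
  rw [← h9, ZMod.natCast_val]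

theorem pow_injective {k : ℕ} (hk : k.Coprime (Fintype.card G)) :
    Function.Injective fun g : G => g ^ k := by
  have h : (Nat.card G).Coprime k := by rw [Nat.card_eq_fintype_card]; exact hk.symm
  exact (powCoprime h).injective

theorem pow_mem_coset (g u : G) (k : ℕ) (hu : u ∈ commutator G) :
    (g ^ k)⁻¹ * (g * u) ^ k ∈ commutator G := by
  rw [← QuotientGroup.eq, QuotientGroup.mk_pow, QuotientGroup.mk_pow]
  congr 1
  rw [QuotientGroup.eq]
  simpa using hu

/-- The power map is a bijection between cosets of the commutator subgroup. -/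
theorem sum_pow_coset {k : ℕ} (hk : k.Coprime (Fintype.card G)) (f : G → ℚ) (g : G) :
    (∑ u : commutator G, f ((g * u) ^ k)) = ∑ w : commutator G, f (g ^ k * w) := by
  let φ : commutator G → commutator G := fun u =>
    ⟨(g ^ k)⁻¹ * (g * u) ^ k, pow_mem_coset g u k u.2⟩
  have hφ : Function.Bijective φ := by
    rw [← Finite.injective_iff_bijective]
    intro u v huv
    have h1 : (g ^ k)⁻¹ * (g * u) ^ k = (g ^ k)⁻¹ * (g * v) ^ k := congrArg Subtype.val huv
    have h2 := pow_injective hk (mul_left_cancel h1)
    exact Subtype.ext (mul_left_cancel h2)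
  refine Fintype.sum_bijective φ hφ _ _ fun u => ?_
  change f ((g * u) ^ k) = f (g ^ k * ((g ^ k)⁻¹ * (g * u) ^ k))
  rw [mul_inv_cancel_left]

theorem linearPart_isPow {f : G → ℚ} (hp : IsPow f) : IsPow (linearPart f) := by
  intro g y h
  obtain ⟨k, hk, rfl⟩ := exists_pow h
  unfold linearPart
  congr 1
  rw [← sum_pow_coset hk f g]
  exact Finset.sum_congr rfl fun u _ => hp _ _ (zpowers_pow hk _).symm

theorem two_dvd_card {c : G} (hc : IsConjugation c) : 2 ∣ Fintype.card G := by
  have h : orderOf c = 2 := by
    rw [orderOf_eq_prime_iff]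
    exact ⟨by rw [pow_two]; exact hc.mul_self, hc.ne_one⟩
  rw [← h]
  exact orderOf_dvd_card

theorem c_pow {c : G} (hc : IsConjugation c) {k : ℕ} (hk : k.Coprime (Fintype.card G)) :
    c ^ k = c := by
  have h1 : k.Coprime 2 := Nat.Coprime.coprime_dvd_right (two_dvd_card hc) hk
  have h2 : Odd k := Nat.coprime_two_right.1 h1
  obtain ⟨j, rfl⟩ := h2
  rw [pow_succ, pow_mul, pow_two, hc.mul_self, one_pow, one_mul]

theorem cmul_pow {c : G} (hc : IsConjugation c) {k : ℕ} (hk : k.Coprime (Fintype.card G)) (g : G) :
    (c * g) ^ k = c * g ^ k := by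
  have h : Commute c g := hc.central g
  rw [h.mul_pow, c_pow hc hk]

theorem isPow_comp {c : G} (hc : IsConjugation c) {f : G → ℚ} (hp : IsPow f) :
    IsPow fun g => f (c * g) := by
  intro g y h
  obtain ⟨k, hk, rfl⟩ := exists_pow h
  change f (c * g) = f (c * g ^ k)
  rw [← cmul_pow hc hk]
  exact hp _ _ (zpowers_pow hk _).symm

/-! ### The known functions have this property -/

theorem isRational_of_mem {c : G} (hc : IsConjugation c) {f : G → ℚ} (hf : f ∈ knownSpan c) :
    IsRational f := by
  have ofPow : ∀ f : G → ℚ, IsPow f → IsRational f := by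
    intro f hp g y h
    rw [hp g y h, linearPart_isPow hp g y h]
  have ofInv : ∀ f : G → ℚ, (∀ g, ∀ u ∈ commutator G, f (g * u) = f g) → IsRational f := by
    intro f hp g y _
    rw [linearPart_of_inv hp, sub_self, sub_self]
  refine Submodule.span_induction (p := fun f _ => IsRational f) ?_ ?_ ?_ ?_ hf
  · intro f hf
    cases hf with
    | one => exact ofPow _ fun _ _ _ => rfl
    | abelian H hcH hH ψ Φ hΦ =>
      apply ofInv
      intro g u hu
      unfold a0
      congr 2
      refine congrArg Finset.card (Finset.filter_congr fun η _ => ?_)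
      have h1 : (η⁻¹ * (g * u) * η) • ψ = (η⁻¹ * g * η) • ψ := by
        induction ψ using QuotientGroup.induction_on with
        | H z =>
          change ((η⁻¹ * (g * u) * η * z : G) : G ⧸ H) = ((η⁻¹ * g * η * z : G) : G ⧸ H)
          rw [QuotientGroup.eq]
          apply hH
          have h2 : (η⁻¹ * (g * u) * η * z)⁻¹ * (η⁻¹ * g * η * z) =
              (η * z)⁻¹ * u⁻¹ * ((η * z)⁻¹)⁻¹ := by group
          rw [h2]
          exact (inferInstance : (commutator G).Normal).conj_mem _ (inv_mem hu) _
      rw [h1]
    | average H hcH =>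
      apply ofPow
      intro g y h
      have e : hs H (c * g) = hs H (c * y) := isPow_comp hc (hs_pow H) g y h
      rw [averaged_eq hc hcH, averaged_eq hc hcH, hs_pow H g y h, e]
  · exact ofPow _ fun _ _ _ => rfl
  · intro f f' _ _ h1 h2 g y h
    rw [linearPart_add]
    simp only [Pi.add_apply]
    have := h1 g y h
    have := h2 g y h
    linarith
  · intro a f _ h1 g y h
    rw [linearPart_smul]
    simp only [Pi.smul_apply, smul_eq_mul]
    have := h1 g y h
    rw [← mul_sub, ← mul_sub, this]

theorem mem_of_isRational {c : G} (hc : IsConjugation c) {F : G → ℚ} (hF : IsClassFn F) {k : ℚ}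
    (hk : ∀ g, F g + F (c * g) = k) (hr : IsRational F) : F ∈ knownSpan c := by
  have hl := linearPart_compl hk
  have h1 : F - linearPart F ∈ knownSpan c := by
    refine mem_of_isPow hc ?_ hr ?_
    · intro x g
      rw [Pi.sub_apply, Pi.sub_apply, hF, linearPart_class]
    · intro g
      rw [Pi.sub_apply, Pi.sub_apply]
      have := hk g
      have := hl g
      linarith
  have h2 : (fun g => linearPart F g - k / 2) ∈ knownSpan c := by
    have hinv : ∀ g, ∀ u ∈ commutator G, linearPart F (g * u) - k / 2 =
        linearPart F g - k / 2 := by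
      intro g u hu
      rw [linearPart_mul F g hu]
    have hodd : ∀ g, linearPart F (c * g) - k / 2 = -(linearPart F g - k / 2) := by
      intro g
      have := hl g
      linarith
    by_cases hcD : c ∈ commutator G
    · have h3 : (fun g => linearPart F g - k / 2) = 0 := by
        funext g
        have e1 := hodd g
        rw [hc.central g, hinv g c hcD] at e1
        rw [Pi.zero_apply]
        linarith
      rw [h3]
      exact Submodule.zero_mem _
    · exact mem_of_abelian hc hcD hinv hodd
  have h3 : F = (F - linearPart F) + (fun g => linearPart F g - k / 2) + fun _ => k / 2 := by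
    funext g
    simp only [Pi.add_apply, Pi.sub_apply]
    ring
  rw [h3]
  exact Submodule.add_mem _ (Submodule.add_mem _ h1 h2) (const_mem c _)

/-! ### Groups with many conjugate elements -/

theorem classFn_of_isConj {F : G → ℚ} (hF : IsClassFn F) {g y : G} (h : IsConj g y) : F y = F g := by
  obtain ⟨x, hx⟩ := isConj_iff.1 h
  have := hF x⁻¹ g
  rw [inv_inv, hx] at this
  exact this

/-- The sum over a coset of the commutator subgroup. -/
theorem sum_coset (f : G → ℚ) (g : G) :
    (∑ u : commutator G, f (g * u)) = ∑ z : G, if g⁻¹ * z ∈ commutator G then f z else 0 := by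
  have h1 : (∑ z : G, if g⁻¹ * z ∈ commutator G then f z else 0) =
      ∑ w : G, if w ∈ commutator G then f (g * w) else 0 := by
    symm
    refine Fintype.sum_equiv (Equiv.mulLeft g) _ _ fun w => ?_
    change _ = if g⁻¹ * (g * w) ∈ commutator G then f (g * w) else 0
    rw [inv_mul_cancel_left]
  rw [h1, ← Finset.sum_filter]
  symm
  exact Finset.sum_subtype _ (fun x => by simp) _

theorem mk_of_isConj {g y : G} (h : IsConj g y) :
    (g : G ⧸ commutator G) = (y : G ⧸ commutator G) := by
  obtain ⟨x, hx⟩ := isConj_iff.1 h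
  rw [← hx]
  have := conj_eq_mk g x⁻¹
  rw [inv_inv] at this
  exact this.symm

/-- The number of the conjugates. -/
noncomputable def cls (g : G) : ℚ := ∑ z : G, if IsConj g z then (1 : ℚ) else 0

theorem cls_cmul {c : G} (hc : IsConjugation c) {m : ℕ} (hm : m.Coprime (Fintype.card G)) (g : G) :
    cls g = cls (c * g ^ m) := by
  unfold cls
  have hb : Function.Bijective fun z : G => c * z ^ m :=
    (Group.mulLeft_bijective c).comp
      (Finite.injective_iff_bijective.1 (pow_injective hm))
  refine Fintype.sum_bijective _ hb _ _ fun z => ?_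
  refine if_congr ?_ rfl rfl
  constructor
  · intro h
    obtain ⟨x, hx⟩ := isConj_iff.1 h
    rw [isConj_iff]
    refine ⟨x, ?_⟩
    rw [← hx, conj_pow, ← mul_assoc, ← hc.central x]
    group
  · intro h
    obtain ⟨x, hx⟩ := isConj_iff.1 h
    rw [isConj_iff]
    refine ⟨x, pow_injective hm ?_⟩
    have h1 : x * (c * g ^ m) * x⁻¹ = c * (x * g * x⁻¹) ^ m := by
      rw [conj_pow, ← mul_assoc, ← hc.central x]
      group
    rw [h1] at hx
    exact mul_left_cancel hx

theorem isRational_at {c : G} (hc : IsConjugation c) {F : G → ℚ} (hF : IsClassFn F) {k : ℚ}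
    (hk : ∀ g, F g + F (c * g) = k) {g y : G} (hz : Subgroup.zpowers g = Subgroup.zpowers y)
    (h : IsConj g y ∨ IsConj g (c * g) ∨
      ∀ u ∈ commutator G, IsConj (g * u) g ∨ IsConj (g * u) (c * y)) :
    F g - linearPart F g = F y - linearPart F y := by
  have hlF : IsClassFn (linearPart F) := linearPart_class F
  have hl := linearPart_compl hk
  have hD := card_comm_pos (G := G)
  rcases h with h | h | h
  · rw [classFn_of_isConj hF h, classFn_of_isConj hlF h]
  · obtain ⟨m, hm, rfl⟩ := exists_pow hz
    have h' : IsConj (g ^ m) (c * g ^ m) := by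
      obtain ⟨x, hx⟩ := isConj_iff.1 h
      rw [isConj_iff]
      exact ⟨x, by rw [← cmul_pow hc hm, ← hx, conj_pow]⟩
    have e1 := classFn_of_isConj hF h
    have e2 := classFn_of_isConj hlF h
    have e3 := classFn_of_isConj hF h'
    have e4 := classFn_of_isConj hlF h'
    have f1 := hk g
    have f2 := hl g
    have f3 := hk (g ^ m)
    have f4 := hl (g ^ m)
    linarith
  · obtain ⟨m, hm, rfl⟩ := exists_pow hz
    by_cases hall : ∀ u ∈ commutator G, IsConj (g * u) g
    · have e1 : ∀ u : commutator G, F (g * u) = F g := fun u =>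
        (classFn_of_isConj hF (hall u u.2)).symm
      have e2 : ∀ u : commutator G, F ((g * u) ^ m) = F (g ^ m) := by
        intro u
        symm
        apply classFn_of_isConj hF
        obtain ⟨x, hx⟩ := isConj_iff.1 (hall u u.2)
        rw [isConj_iff]
        exact ⟨x, by rw [← conj_pow, hx]⟩
      have e3 : linearPart F g = F g := by
        unfold linearPart
        rw [Finset.sum_congr rfl fun u _ => e1 u, Finset.sum_const, Finset.card_univ,
          nsmul_eq_mul]
        field_simp
      have e4 : linearPart F (g ^ m) = F (g ^ m) := by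
        unfold linearPart
        rw [← sum_pow_coset hm F g, Finset.sum_congr rfl fun u _ => e2 u, Finset.sum_const,
          Finset.card_univ, nsmul_eq_mul]
        field_simp
      rw [e3, e4, sub_self, sub_self]
    · push Not at hall
      obtain ⟨u, hu, hug⟩ := hall
      have hcy : IsConj (g * u) (c * g ^ m) := (h u hu).resolve_left hug
      have hq : (g : G ⧸ commutator G) = ((c * g ^ m : G) : G ⧸ commutator G) := by
        rw [← mk_of_isConj hcy, QuotientGroup.eq]
        simpa using hu
      have hncy : ¬ IsConj g (c * g ^ m) := fun h' => hug (hcy.trans h'.symm)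
      have hL : linearPart F (c * g ^ m) = linearPart F g := by
        have h1 : c * g ^ m = g * (g⁻¹ * (c * g ^ m)) := by group
        rw [h1]
        exact linearPart_mul F g (QuotientGroup.eq.1 hq)
      have hsum : ∀ f : G → ℚ, IsClassFn f → (∑ u : commutator G, f (g * u)) =
          cls g * (f g + f (c * g ^ m)) := by
        intro f hf
        rw [sum_coset]
        have e1 : ∀ z : G, (if g⁻¹ * z ∈ commutator G then f z else 0) =
            (if IsConj g z then (1 : ℚ) else 0) * f g +
            (if IsConj (c * g ^ m) z then (1 : ℚ) else 0) * f (c * g ^ m) := by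
          intro z
          by_cases hz1 : IsConj g z
          · have hz2 : ¬ IsConj (c * g ^ m) z := fun h' => hncy (hz1.trans h'.symm)
            rw [if_pos hz1, if_neg hz2, if_pos (QuotientGroup.eq.1 (mk_of_isConj hz1)),
              classFn_of_isConj hf hz1]
            ring
          · by_cases hz2 : IsConj (c * g ^ m) z
            · rw [if_neg hz1, if_pos hz2, if_pos (QuotientGroup.eq.1
                (hq.trans (mk_of_isConj hz2))), classFn_of_isConj hf hz2]
              ring
            · rw [if_neg hz1, if_neg hz2, if_neg]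
              · ring
              · intro hz3
                rcases h _ hz3 with h' | h'
                · rw [mul_inv_cancel_left] at h'
                  exact hz1 h'.symm
                · rw [mul_inv_cancel_left] at h'
                  exact hz2 h'.symm
        rw [Finset.sum_congr rfl fun z _ => e1 z, Finset.sum_add_distrib, ← Finset.sum_mul,
          ← Finset.sum_mul]
        change cls g * _ + cls (c * g ^ m) * _ = _
        rw [← cls_cmul hc hm g]
        ring
      have h1 := hsum (fun _ => 1) fun _ _ => rfl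
      have h2 := hsum F hF
      rw [Finset.sum_const, Finset.card_univ, nsmul_eq_mul] at h1
      have h3 : linearPart F g = (F g + F (c * g ^ m)) / 2 := by
        unfold linearPart
        rw [h2, div_eq_iff hD.ne']
        have : (Fintype.card (commutator G) : ℚ) = cls g * 2 := by linarith
        rw [this]
        ring
      have f1 := hk (g ^ m)
      have f2 := hl (g ^ m)
      linarith

theorem isRational_of_good {c : G} (hc : IsConjugation c) (h : IsGoodGroup c) {F : G → ℚ}
    (hF : IsClassFn F) {k : ℚ} (hk : ∀ g, F g + F (c * g) = k) : IsRational F :=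
  fun g y hz => isRational_at hc hF hk hz (h g y hz)

theorem linearPart_inv {F : G → ℚ} (hs : ∀ g, F g⁻¹ = F g) (g : G) :
    linearPart F g⁻¹ = linearPart F g := by
  unfold linearPart
  congr 1
  let φ : commutator G → commutator G := fun u => ⟨g * (u : G)⁻¹ * g⁻¹,
    (inferInstance : (commutator G).Normal).conj_mem _ (inv_mem u.2) _⟩
  have hφ : Function.Bijective φ := by
    rw [← Finite.injective_iff_bijective]
    intro u v huv
    have h1 : g * (u : G)⁻¹ * g⁻¹ = g * (v : G)⁻¹ * g⁻¹ := congrArg Subtype.val huv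
    exact Subtype.ext (inv_injective (mul_left_cancel (mul_right_cancel h1)))
  symm
  refine Fintype.sum_bijective φ hφ _ _ fun u => ?_
  change F (g * u) = F (g⁻¹ * (g * (u : G)⁻¹ * g⁻¹))
  rw [← hs (g * u)]
  congr 1
  group

/-! ### The functions of CM types -/

theorem a0_class {H : Subgroup G} (ψ : G ⧸ H) (Φ : Finset (G ⧸ H)) : IsClassFn (a0 ψ Φ) := by
  intro x g
  unfold a0
  congr 2
  refine Finset.card_bijective (fun η => x * η) (Group.mulLeft_bijective x) fun η => ?_
  simp only [Finset.mem_filter, Finset.mem_univ, true_and]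
  have h : η⁻¹ * (x⁻¹ * g * x) * η = (x * η)⁻¹ * g * (x * η) := by group
  rw [h]

theorem a0_compl {c : G} (hc : IsConjugation c) {H : Subgroup G} (ψ : G ⧸ H)
    {Φ : Finset (G ⧸ H)} (hΦ : IsCMType c Φ) (g : G) : a0 ψ Φ g + a0 ψ Φ (c * g) = 1 := by
  have hN : (0 : ℚ) < Fintype.card G := card_pos'
  have h1 : (Finset.univ.filter fun η : G => (η⁻¹ * (c * g) * η) • ψ ∈ Φ) =
      Finset.univ.filter fun η : G => ¬ (η⁻¹ * g * η) • ψ ∈ Φ := by
    refine Finset.filter_congr fun η _ => ?_
    rw [conj_c_mul hc, mul_smul c]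
    have := hΦ ((η⁻¹ * g * η) • ψ)
    tauto
  unfold a0
  rw [h1, ← add_div]
  rw [div_eq_one_iff_eq hN.ne']
  exact_mod_cast Finset.card_filter_add_card_filter_not (s := (Finset.univ : Finset G)) _

theorem height_class {H : Subgroup G} (Φ : Finset (G ⧸ H)) : IsClassFn (height Φ) := by
  intro x g
  exact Finset.sum_congr rfl fun ψ _ => a0_class ψ Φ x g

theorem height_compl {c : G} (hc : IsConjugation c) {H : Subgroup G}
    {Φ : Finset (G ⧸ H)} (hΦ : IsCMType c Φ) (g : G) :
    height Φ g + height Φ (c * g) = Φ.card := by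
  unfold height
  rw [← Finset.sum_add_distrib, Finset.sum_congr rfl fun ψ _ => a0_compl hc ψ hΦ g]
  simp

theorem height_inv {H : Subgroup G} (Φ : Finset (G ⧸ H)) (g : G) :
    height Φ g⁻¹ = height Φ g := by
  have h1 : ∀ g : G, height Φ g = (∑ η : G,
      ((Φ.filter fun ψ => (η⁻¹ * g * η) • ψ ∈ Φ).card : ℚ)) / Fintype.card G := by
    intro g
    unfold height a0
    rw [← Finset.sum_div]
    congr 1
    have e1 : ∀ ψ ∈ Φ, ((Finset.univ.filter fun η : G => (η⁻¹ * g * η) • ψ ∈ Φ).card : ℚ) =
        ∑ η : G, if (η⁻¹ * g * η) • ψ ∈ Φ then (1 : ℚ) else 0 := by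
      intro ψ _
      rw [Finset.card_filter]; push_cast; rfl
    rw [Finset.sum_congr rfl e1, Finset.sum_comm]
    refine Finset.sum_congr rfl fun η _ => ?_
    rw [Finset.card_filter]; push_cast; rfl
  rw [h1, h1]
  congr 1
  refine Finset.sum_congr rfl fun η _ => ?_
  congr 1
  refine Finset.card_nbij' (fun ψ => (η⁻¹ * g⁻¹ * η) • ψ) (fun ψ => (η⁻¹ * g * η) • ψ) ?_ ?_ ?_ ?_
  · intro ψ hψ
    simp only [Finset.coe_filter, Set.mem_setOf_eq] at hψ ⊢
    refine ⟨hψ.2, ?_⟩
    rw [smul_smul]
    have : η⁻¹ * g * η * (η⁻¹ * g⁻¹ * η) = 1 := by group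
    rw [this, one_smul]
    exact hψ.1
  · intro ψ hψ
    simp only [Finset.coe_filter, Set.mem_setOf_eq] at hψ ⊢
    refine ⟨hψ.2, ?_⟩
    rw [smul_smul]
    have : η⁻¹ * g⁻¹ * η * (η⁻¹ * g * η) = 1 := by group
    rw [this, one_smul]
    exact hψ.1
  · intro ψ _
    change (η⁻¹ * g * η) • (η⁻¹ * g⁻¹ * η) • ψ = ψ
    rw [smul_smul]
    have : η⁻¹ * g * η * (η⁻¹ * g⁻¹ * η) = 1 := by group
    rw [this, one_smul]
  · intro ψ _
    change (η⁻¹ * g⁻¹ * η) • (η⁻¹ * g * η) • ψ = ψ
    rw [smul_smul]
    have : η⁻¹ * g⁻¹ * η * (η⁻¹ * g * η) = 1 := by group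
    rw [this, one_smul]

theorem goodForHeights_of_exponent {c : G} (hc : IsConjugation c)
    (h : ∀ g : G, g ^ 4 = 1 ∨ g ^ 6 = 1) : IsGoodForHeights c := by
  intro g y hz
  left
  obtain ⟨k, hk, rfl⟩ := exists_pow hz
  have h2 : Odd k := Nat.coprime_two_right.1 (Nat.Coprime.coprime_dvd_right (two_dvd_card hc) hk)
  have key : g ^ k = g ∨ g ^ k = g⁻¹ := by
    have hinv : ∀ n : ℕ, g ^ (n + 1) = 1 → g ^ n = g⁻¹ := by
      intro n hn
      rw [pow_succ] at hn
      exact eq_inv_of_mul_eq_one_left hn
    have hmod : ∀ n : ℕ, g ^ n = 1 → g ^ k = g ^ (k % n) := by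
      intro n hn
      conv_lhs => rw [← Nat.div_add_mod k n]
      rw [pow_add, pow_mul, hn, one_pow, one_mul]
    rcases h g with h4 | h6
    · have h5 : k % 4 = 1 ∨ k % 4 = 3 := by
        obtain ⟨j, rfl⟩ := h2; omega
      rw [hmod 4 h4]
      rcases h5 with h5 | h5 <;> rw [h5]
      · left; rw [pow_one]
      · right; exact hinv 3 h4
    · by_cases h3 : g ^ 2 = 1
      · left
        rw [hmod 2 h3, Nat.odd_iff.1 h2, pow_one]
      · have h7 : 3 ∣ orderOf g := by
          by_contra h8
          have h9 : orderOf g ∣ 6 := orderOf_dvd_of_pow_eq_one h6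
          have h10 : (orderOf g).Coprime 3 :=
            ((Nat.Prime.coprime_iff_not_dvd Nat.prime_three).2 h8).symm
          have h11 : orderOf g ∣ 2 := by
            have : orderOf g ∣ 2 * 3 := by simpa using h9
            exact h10.dvd_of_dvd_mul_right this
          exact h3 (orderOf_dvd_iff_pow_eq_one.1 h11)
        have h8 : ¬ 3 ∣ k := by
          intro h9
          have h10 : 3 ∣ Nat.gcd k (Fintype.card G) :=
            Nat.dvd_gcd h9 (h7.trans orderOf_dvd_card)
          rw [hk] at h10
          omega
        have h5 : k % 6 = 1 ∨ k % 6 = 5 := by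
          obtain ⟨j, rfl⟩ := h2; omega
        rw [hmod 6 h6]
        rcases h5 with h5 | h5 <;> rw [h5]
        · left; rw [pow_one]
        · right; exact hinv 5 h6
  rcases key with h | h
  · left; rw [h]
  · right; rw [h]

end Pool.Agent.TH117.CZ
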