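import Pool.Agent.TH117.CZ.Artin

/-!
# Counting CM types
-/

set_option autoImplicit false

namespace Pool.Agent.TH117.CZ

open scoped Classical

variable {G : Type} [Group G] [Fintype G]

section

variable {c : G} (hc : IsConjugation c) {H : Subgroup G}

include hc

omit [Fintype G] in
theorem smul_smul_self (x : G ⧸ H) : c • c • x = x := by
  rw [smul_smul, hc.mul_self, one_smul]

omit [Fintype G] in
theorem inv_eq_self : c⁻¹ = c := inv_eq_of_mul_eq_one_left hc.mul_self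

omit [Fintype G] in
theorem smul_ne (hH : c ∉ H) (x : G ⧸ H) : c • x ≠ x := by
  induction x using QuotientGroup.induction_on with
  | H z =>
    intro h
    have h1 : ((c * z : G) : G ⧸ H) = (z : G ⧸ H) := h
    rw [QuotientGroup.eq] at h1
    have h2 : (c * z)⁻¹ * z = c := by
      rw [hc.central z, mul_inv_rev, inv_eq_self hc, mul_assoc, inv_mul_cancel, mul_one]
    rw [h2] at h1
    exact hH h1

omit [Fintype G] in
theorem smul_eq_iff (x y : G ⧸ H) : c • x = y ↔ x = c • y := by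
  constructor
  · rintro rfl; rw [smul_smul_self hc]
  · rintro rfl; rw [smul_smul_self hc]

/-- The CM types of the field of `H`. -/
noncomputable def cmTypes (_ : IsConjugation c) (H : Subgroup G) : Finset (Finset (G ⧸ H)) :=
  Finset.univ.filter fun Φ : Finset (G ⧸ H) => IsCMType c Φ

theorem mem_cmTypes {Φ : Finset (G ⧸ H)} : Φ ∈ cmTypes hc H ↔ IsCMType c Φ := by
  simp [cmTypes]

omit hc [Fintype G] in
theorem compl_isCMType [Fintype (G ⧸ H)] {Φ : Finset (G ⧸ H)} (h : IsCMType c Φ) : IsCMType c Φᶜ := by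
  intro x
  rw [Finset.mem_compl, Finset.mem_compl, not_not]
  have := h x
  tauto

/-- Change the type at `y`. -/
noncomputable def swap (_ : IsConjugation c) (y : G ⧸ H) (Φ : Finset (G ⧸ H)) : Finset (G ⧸ H) :=
  Finset.univ.filter fun x => if x = y ∨ x = c • y then x ∉ Φ else x ∈ Φ

theorem mem_swap {y x : G ⧸ H} {Φ : Finset (G ⧸ H)} :
    x ∈ swap hc y Φ ↔ if x = y ∨ x = c • y then x ∉ Φ else x ∈ Φ := by
  simp only [swap, Finset.mem_filter, Finset.mem_univ, true_and]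

theorem swap_isCMType (y : G ⧸ H) {Φ : Finset (G ⧸ H)} (h : IsCMType c Φ) :
    IsCMType c (swap hc y Φ) := by
  intro x
  rw [mem_swap, mem_swap]
  have h1 : (c • x = y ∨ c • x = c • y) ↔ (x = y ∨ x = c • y) := by
    rw [smul_eq_iff hc, smul_eq_iff hc x (c • y), smul_smul_self hc, or_comm]
  have h2 := h x
  by_cases hx : x = y ∨ x = c • y
  · rw [if_pos hx, if_pos (h1.2 hx)]; tauto
  · rw [if_neg hx, if_neg fun h => hx (h1.1 h)]; exact h2

theorem swap_swap (y : G ⧸ H) (Φ : Finset (G ⧸ H)) : swap hc y (swap hc y Φ) = Φ := by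
  ext x
  rw [mem_swap, mem_swap]
  split_ifs <;> simp

theorem exists_isCMType (hH : c ∉ H) : ∃ Φ : Finset (G ⧸ H), IsCMType c Φ := by
  let e := Fintype.equivFin (G ⧸ H)
  refine ⟨Finset.univ.filter fun x => e x < e (c • x), fun x => ?_⟩
  simp only [Finset.mem_filter, Finset.mem_univ, true_and, smul_smul_self hc, not_lt]
  constructor
  · exact fun h => h.le
  · intro h
    exact lt_of_le_of_ne h fun h' => smul_ne hc hH x (e.injective h').symm

theorem card_cmTypes_pos (hH : c ∉ H) : (0 : ℚ) < (cmTypes hc H).card := by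
  obtain ⟨Φ, hΦ⟩ := exists_isCMType hc hH
  exact_mod_cast Finset.card_pos.2 ⟨Φ, (mem_cmTypes hc).2 hΦ⟩

theorem count_single (x : G ⧸ H) :
    (∑ Φ ∈ cmTypes hc H, if x ∈ Φ then (1 : ℚ) else 0) = (cmTypes hc H).card / 2 := by
  have h1 : (∑ Φ ∈ cmTypes hc H, if x ∈ Φ then (1 : ℚ) else 0) =
      ∑ Φ ∈ cmTypes hc H, if x ∈ Φ then (0 : ℚ) else 1 := by
    refine Finset.sum_nbij' (fun Φ => Φᶜ) (fun Φ => Φᶜ) ?_ ?_ ?_ ?_ ?_
    · intro Φ hΦ
      exact (mem_cmTypes hc).2 (compl_isCMType ((mem_cmTypes hc).1 hΦ))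
    · intro Φ hΦ
      exact (mem_cmTypes hc).2 (compl_isCMType ((mem_cmTypes hc).1 hΦ))
    · intro Φ _; exact compl_compl Φ
    · intro Φ _; exact compl_compl Φ
    · intro Φ _
      by_cases h : x ∈ Φ <;> simp [h]
  have h2 : (∑ Φ ∈ cmTypes hc H, if x ∈ Φ then (1 : ℚ) else 0) +
      (∑ Φ ∈ cmTypes hc H, if x ∈ Φ then (0 : ℚ) else 1) = (cmTypes hc H).card := by
    rw [← Finset.sum_add_distrib]
    rw [Finset.sum_congr rfl (g := fun _ => (1 : ℚ)) fun Φ _ => by split_ifs <;> norm_num]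
    simp
  linarith

theorem count_pair {x y : G ⧸ H} (h1 : y ≠ x) (h2 : y ≠ c • x) :
    (∑ Φ ∈ cmTypes hc H, if x ∈ Φ ∧ y ∈ Φ then (1 : ℚ) else 0) = (cmTypes hc H).card / 4 := by
  have hx : ¬ (x = y ∨ x = c • y) := by
    rintro (h | h)
    · exact h1 h.symm
    · exact h2 ((smul_eq_iff hc x y).2 h).symm
  have e1 : (∑ Φ ∈ cmTypes hc H, if x ∈ Φ ∧ y ∈ Φ then (1 : ℚ) else 0) =
      ∑ Φ ∈ cmTypes hc H, if x ∈ Φ ∧ y ∉ Φ then (1 : ℚ) else 0 := by
    refine Finset.sum_nbij' (swap hc y) (swap hc y) ?_ ?_ ?_ ?_ ?_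
    · intro Φ hΦ
      exact (mem_cmTypes hc).2 (swap_isCMType hc y ((mem_cmTypes hc).1 hΦ))
    · intro Φ hΦ
      exact (mem_cmTypes hc).2 (swap_isCMType hc y ((mem_cmTypes hc).1 hΦ))
    · intro Φ _; exact swap_swap hc y Φ
    · intro Φ _; exact swap_swap hc y Φ
    · intro Φ _
      have a1 : x ∈ swap hc y Φ ↔ x ∈ Φ := by rw [mem_swap, if_neg hx]
      have a2 : y ∈ swap hc y Φ ↔ y ∉ Φ := by rw [mem_swap, if_pos (Or.inl rfl)]
      refine if_congr ?_ rfl rfl
      rw [a1, a2, not_not]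
  have e2 : (∑ Φ ∈ cmTypes hc H, if x ∈ Φ ∧ y ∈ Φ then (1 : ℚ) else 0) +
      (∑ Φ ∈ cmTypes hc H, if x ∈ Φ ∧ y ∉ Φ then (1 : ℚ) else 0) = (cmTypes hc H).card / 2 := by
    rw [← Finset.sum_add_distrib, ← count_single hc x]
    refine Finset.sum_congr rfl fun Φ _ => ?_
    by_cases a : x ∈ Φ <;> by_cases b : y ∈ Φ <;> simp [a, b]
  linarith

theorem count_eq (hH : c ∉ H) (x y : G ⧸ H) :
    (∑ Φ ∈ cmTypes hc H, if x ∈ Φ ∧ y ∈ Φ then (1 : ℚ) else 0) =
      (cmTypes hc H).card / 4 *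
        (1 + (if y = x then (1 : ℚ) else 0) - (if y = c • x then (1 : ℚ) else 0)) := by
  by_cases h1 : y = x
  · subst h1
    rw [if_pos rfl, if_neg fun h => smul_ne hc hH y h.symm]
    simp only [and_self]
    rw [count_single hc y]
    ring
  · by_cases h2 : y = c • x
    · rw [if_neg h1, if_pos h2]
      rw [Finset.sum_eq_zero]
      · ring
      · intro Φ hΦ
        rw [if_neg]
        rintro ⟨a, b⟩
        rw [h2] at b
        exact (((mem_cmTypes hc).1 hΦ) x).1 a b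
    · rw [count_pair hc h1 h2, if_neg h1, if_neg h2]
      ring

end

theorem sum_fix (H : Subgroup G) (g : G) (ψ : G ⧸ H) :
    (∑ η : G, if (η⁻¹ * g * η) • ψ = ψ then (1 : ℚ) else 0) = hs H g := by
  induction ψ using QuotientGroup.induction_on with
  | H z =>
    unfold hs
    refine Fintype.sum_equiv (Equiv.mulRight z) _ _ fun η => ?_
    have h1 : ((η⁻¹ * g * η) • (z : G ⧸ H) = (z : G ⧸ H)) ↔ (η * z)⁻¹ * g * (η * z) ∈ H := by
      have h2 : ((η⁻¹ * g * η) • (z : G ⧸ H)) = ((η⁻¹ * g * η * z : G) : G ⧸ H) := rfl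
      rw [h2, eq_comm, QuotientGroup.eq]
      have h3 : z⁻¹ * (η⁻¹ * g * η * z) = (η * z)⁻¹ * g * (η * z) := by group
      rw [h3]
    rw [if_congr h1 rfl rfl]
    rfl

theorem averaged_eq {c : G} (hc : IsConjugation c) {H : Subgroup G} (hH : c ∉ H) (g : G) :
    averaged c H g = (cmTypes hc H).card * Fintype.card (G ⧸ H) / (4 * Fintype.card G) *
      (Fintype.card G + hs H g - hs H (c * g)) := by
  have h1 : averaged c H g = (∑ ψ : G ⧸ H, ∑ η : G, ∑ Φ ∈ cmTypes hc H,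
      if ψ ∈ Φ ∧ (η⁻¹ * g * η) • ψ ∈ Φ then (1 : ℚ) else 0) / Fintype.card G := by
    have e1 : averaged c H g = ∑ Φ ∈ cmTypes hc H, (∑ ψ : G ⧸ H, ∑ η : G,
        if ψ ∈ Φ ∧ (η⁻¹ * g * η) • ψ ∈ Φ then (1 : ℚ) else 0) / Fintype.card G := by
      unfold averaged height
      refine Finset.sum_congr rfl fun Φ _ => ?_
      rw [Finset.sum_div, ← Finset.sum_filter_add_sum_filter_not (s := Finset.univ) (p := (· ∈ Φ))]
      rw [Finset.filter_mem_eq_inter, Finset.univ_inter]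
      have e3 : (∑ ψ ∈ Finset.univ.filter fun ψ => ψ ∉ Φ, (∑ η : G,
          if ψ ∈ Φ ∧ (η⁻¹ * g * η) • ψ ∈ Φ then (1 : ℚ) else 0) / Fintype.card G) = 0 := by
        refine Finset.sum_eq_zero fun ψ hψ => ?_
        rw [Finset.mem_filter] at hψ
        rw [Finset.sum_eq_zero fun η _ => if_neg fun h => hψ.2 h.1, zero_div]
      rw [e3, add_zero]
      refine Finset.sum_congr rfl fun ψ hψ => ?_
      unfold a0
      congr 1
      rw [Finset.card_filter]
      push_cast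
      refine Finset.sum_congr rfl fun η _ => ?_
      refine if_congr ?_ rfl rfl
      exact ⟨fun h => ⟨hψ, h⟩, fun h => h.2⟩
    rw [e1, ← Finset.sum_div]
    congr 1
    rw [Finset.sum_comm]
    refine Finset.sum_congr rfl fun ψ _ => ?_
    rw [Finset.sum_comm]
  rw [h1]
  have h2 : ∀ ψ : G ⧸ H, (∑ η : G, ∑ Φ ∈ cmTypes hc H,
      if ψ ∈ Φ ∧ (η⁻¹ * g * η) • ψ ∈ Φ then (1 : ℚ) else 0) =
      (cmTypes hc H).card / 4 * (Fintype.card G + hs H g - hs H (c * g)) := by
    intro ψ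
    rw [Finset.sum_congr rfl fun η _ => count_eq hc hH ψ ((η⁻¹ * g * η) • ψ)]
    rw [← Finset.mul_sum]
    congr 1
    rw [Finset.sum_sub_distrib, Finset.sum_add_distrib, sum_fix H g ψ, ← sum_fix H (c * g) ψ]
    congr 1
    · simp
    · refine Finset.sum_congr rfl fun η _ => ?_
      refine if_congr ?_ rfl rfl
      have h3 : η⁻¹ * (c * g) * η = c * (η⁻¹ * g * η) := by
        rw [← mul_assoc, ← hc.central η⁻¹]
        group
      rw [h3, mul_smul c, smul_eq_iff hc]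
  rw [Finset.sum_congr rfl fun ψ _ => h2 ψ, Finset.sum_const, Finset.card_univ, nsmul_eq_mul]
  have hN : (0 : ℚ) < Fintype.card G := card_pos'
  field_simp

end Pool.Agent.TH117.CZ
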